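import Pool.Agent.H78.RA.Two

/-!
# Project BD: almost commuting projections and the cubical complex, definitions
-/

set_option autoImplicit false

open Finset

namespace Pool.Agent.H8.BD

open Pool.Agent.H78.RA

variable {S : Type} [Fintype S] [DecidableEq S]

/-- Projections `P T` (`T ⊆ S`) of norm at most one, `P T` has the intersection of the images of the `P {v}`,
`v ∈ T`, as its image, is zero if `T` is not spherical, and for all pairs `P {u} P {v}` is `P {u, v}` up to
`ε`. -/
structure Pairs {X : Type} [NormedAddCommGroup X] [NormedSpace ℂ X] (Sph : Finset S → Prop)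
    (P : Finset S → X →L[ℂ] X) (ε : ℝ) : Prop where
  one : P ∅ = 1
  norm : ∀ T, ‖P T‖ ≤ 1
  nest : ∀ T U, T ⊆ U → P T * P U = P U
  nest' : ∀ T U, T ⊆ U → P U * P T = P U
  fix : ∀ T x, (∀ v ∈ T, P {v} x = x) → P T x = x
  zero : ∀ T, ¬ Sph T → P T = 0
  pair : ∀ u v, u ≠ v → ‖P {u} * P {v} - P {u, v}‖ ≤ ε

/-- a chain of degree `i`: supported on the cubes `(A, T)`, `A ⊆ T` spherical, with `i` directions `T \ A` -/
def Ch {E : Type*} [Zero E] (Sph : Finset S → Prop) (i : ℕ) (f : Finset S → Finset S → E) : Prop :=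
  ∀ A T, f A T ≠ 0 → A ⊆ T ∧ Sph T ∧ (T \ A).card = i

/-- The boundary of the cubical complex: the faces of the cube `(A, T)` are the `(A, T - v)` and the `(A + v, T)`,
`v ∈ T \ A`; chains on the cubes of type `(A, T)` are elements of the image of `P A`. -/
def cbd {E : Type*} [AddCommGroup E] (ν : S → ℕ) (P : Finset S → E → E) (f : Finset S → Finset S → E) :
    Finset S → Finset S → E :=
  fun A T => if A ⊆ T then ∑ v ∈ Tᶜ, sg ν (T \ A) v • f A (insert v T)
    - ∑ v ∈ A, sg ν (T \ A) v • P A (f (A.erase v) T) else 0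

end Pool.Agent.H8.BD
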