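import Pool.Agent.H8.BD.Triv
import Pool.Agent.H4.BD.Defs
import Pool.Agent.H22.BD.Avg

/-!
# Project BD: the reduced `ℓ²`-homology of the Davis realization vanishes when the links are acyclic

`l2zeroB_of_ex`: for a building whose panels are finite of bounded size, if the simplicial chains of all full subcomplexes of
the nerve are exact in all sizes `≥ i`, then the reduced `ℓ²`-homology of the Davis realization of the building
vanishes in degree `i` (every square summable cycle is even a boundary).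

A chain `z U T R` is turned into the functions `x ↦ z U T (R_U x) / |R_U x|` on the chambers; the boundary becomes
`cbd` with the projections `PT`.
-/

set_option autoImplicit false
set_option linter.unusedSectionVars false

open Finset

namespace Pool.Agent.H8.BD

open Pool.Agent.H4.FC Pool.Agent.H78.RC Pool.Agent.H97.BLD Pool.Agent.H78.RA Pool.Agent.H22.BD
open Pool.Agent.H4.BD

variable {S : Type} [Fintype S] [DecidableEq S] {Δ : Type} {M : CoxeterMatrix S}
  {δ : Δ → Δ → M.Group}

/-! ### residues -/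

theorem mem_res {U : Finset S} {x d : Δ} : d ∈ residue M δ U x ↔ δ x d ∈ par M U := Iff.rfl

theorem par_symm' (h : IsBuilding M δ) {U : Finset S} {x y : Δ} (hxy : δ x y ∈ par M U) :
    δ y x ∈ par M U := by
  rw [h.symm x y]
  exact inv_mem hxy

theorem res_eq (h : IsBuilding M δ) {U : Finset S} {x y : Δ} (hxy : δ x y ∈ par M U) :
    residue M δ U x = residue M δ U y := by
  ext d
  rw [mem_res, mem_res]
  exact ⟨fun hd => h.par_trans (par_symm' h hxy) hd, fun hd => h.par_trans hxy hd⟩

theorem par_le {U V : Finset S} (hUV : U ⊆ V) : par M U ≤ par M V := by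
  apply Subgroup.closure_mono
  rintro w ⟨v, hv, rfl⟩
  exact ⟨v, hUV hv, rfl⟩

theorem sph_sub {T U : Finset S} (hTU : T ⊆ U) (hU : Sph M U) : Sph M T := by
  have h1 : Finite (par M U) := hU
  exact Finite.of_injective (Subgroup.inclusion (par_le hTU)) (Subgroup.inclusion_injective _)

theorem exists_dist_bound (h : IsBuilding M δ) (hf : ∀ s c, {d | δ c d = M.simple s}.Finite) {m : ℕ}
    (hm : ∀ s c, {d | δ c d = M.simple s}.ncard ≤ m) (w : M.Group) :
    ∃ N : ℕ, ∀ c, {d | δ c d = w}.ncard ≤ N := by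
  obtain ⟨ω, hω⟩ := M.toCoxeterSystem.wordProd_surjective w
  subst hω
  induction ω using List.reverseRecOn with
  | nil =>
    refine ⟨1, fun c => ?_⟩
    have h1 : {d | δ c d = M.toCoxeterSystem.wordProd []} ⊆ {c} := by
      intro d hd
      have h1 : δ c d = 1 := by simpa using hd
      exact ((h.eq_one c d).1 h1).symm
    exact (Set.ncard_le_ncard h1 (Set.finite_singleton c)).trans (by rw [Set.ncard_singleton])
  | append_singleton ω s ih =>
    obtain ⟨N, hN⟩ := ih
    refine ⟨N * m, fun c => ?_⟩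
    have hA : {d | δ c d = M.toCoxeterSystem.wordProd ω}.Finite := finite_dist h hf c _
    have h1 : {d | δ c d = M.toCoxeterSystem.wordProd (ω ++ [s])} ⊆
        ⋃ b ∈ hA.toFinset, {d | δ b d = M.simple s} := by
      intro d hd
      obtain ⟨b, hb1, hb2⟩ := h.exists_stepR s c d
      have h1 : δ c b = M.toCoxeterSystem.wordProd ω := by
        have h2 : δ c d = M.toCoxeterSystem.wordProd ω * M.simple s := by
          have h3 : δ c d = M.toCoxeterSystem.wordProd (ω ++ [s]) := hd
          rw [h3, CoxeterSystem.wordProd_append]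
          simp only [CoxeterSystem.wordProd_singleton]
          rfl
        have h4 : M.simple s * M.simple s = 1 := M.toCoxeterSystem.simple_mul_simple_self s
        rw [hb2, h2, mul_assoc, h4, mul_one]
      exact Set.mem_biUnion ((Set.Finite.mem_toFinset hA).2 h1) (h.symm_simple hb1)
    have hfU : (⋃ b ∈ hA.toFinset, {d | δ b d = M.simple s}).Finite :=
      Set.Finite.biUnion (Finset.finite_toSet _) fun b _ => hf s b
    refine (Set.ncard_le_ncard h1 hfU).trans ?_
    have h2 : (⋃ b ∈ hA.toFinset, {d | δ b d = M.simple s}).ncard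
        ≤ ∑ b ∈ hA.toFinset, {d | δ b d = M.simple s}.ncard := by
      exact Finset.set_ncard_biUnion_le _ _
    refine h2.trans ?_
    have h3 : ∀ b ∈ hA.toFinset, {d | δ b d = M.simple s}.ncard ≤ m := fun b _ => hm s b
    refine (Finset.sum_le_card_nsmul _ _ _ h3).trans ?_
    rw [smul_eq_mul]
    apply Nat.mul_le_mul_right
    rw [← Set.ncard_eq_toFinset_card _ hA]
    exact hN c

theorem exists_res_bound (h : IsBuilding M δ) (hf : ∀ s c, {d | δ c d = M.simple s}.Finite) {m : ℕ}
    (hm : ∀ s c, {d | δ c d = M.simple s}.ncard ≤ m) {U : Finset S}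
    (hU : Sph M U) : ∃ N : ℕ, ∀ c, (residue M δ U c).ncard ≤ N := by
  have hU' : Finite (par M U) := hU
  have hfin : (par M U : Set M.Group).Finite := Set.toFinite _
  choose N hN using exists_dist_bound h hf hm
  refine ⟨∑ w ∈ hfin.toFinset, N w, fun c => ?_⟩
  have h1 : residue M δ U c ⊆ ⋃ w ∈ hfin.toFinset, {d | δ c d = w} := by
    intro d hd
    exact Set.mem_biUnion ((Set.Finite.mem_toFinset hfin).2 hd) rfl
  have hfU : (⋃ w ∈ hfin.toFinset, {d | δ c d = w}).Finite :=
    Set.Finite.biUnion (Finset.finite_toSet _) fun w _ => finite_dist h hf c w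
  refine (Set.ncard_le_ncard h1 hfU).trans ?_
  have h2 : (⋃ w ∈ hfin.toFinset, {d | δ c d = w}).ncard
      ≤ ∑ w ∈ hfin.toFinset, {d | δ c d = w}.ncard := Finset.set_ncard_biUnion_le _ _
  exact h2.trans (Finset.sum_le_sum fun w _ => hN w c)

theorem res_ncard_pos (h : IsBuilding M δ) {U : Finset S} {x : Δ}
    (hfin : (residue M δ U x).Finite) : 0 < (residue M δ U x).ncard :=
  (Set.ncard_pos hfin).2 ⟨x, mem_residue_self h U x⟩

/-- the panels have bounded size if there are finitely many orbits of chambers -/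
theorem exists_panel_bound {P : Type} [Group P] [MulAction P Δ] (hG : GAct P M δ)
    (hf : ∀ s c, {d | δ c d = M.simple s}.Finite) :
    ∃ m : ℕ, ∀ s c, {d | δ c d = M.simple s}.ncard ≤ m := by
  obtain ⟨F, hF⟩ := hG.cof
  refine ⟨∑ s, ∑ y ∈ F, {d | δ y d = M.simple s}.ncard, fun s c => ?_⟩
  obtain ⟨p, y, hy, rfl⟩ := hF c
  have h1 : {d | δ (p • y) d = M.simple s} ⊆ (fun d => p • d) '' {d | δ y d = M.simple s} := by
    intro d hd
    refine ⟨p⁻¹ • d, ?_, smul_inv_smul p d⟩
    have h2 := hG.iso p y (p⁻¹ • d)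
    rw [smul_inv_smul] at h2
    show δ y (p⁻¹ • d) = M.simple s
    rw [← h2]
    exact hd
  refine (Set.ncard_le_ncard h1 ((hf s y).image _)).trans ?_
  refine (Set.ncard_image_le (hf s y)).trans ?_
  refine le_trans ?_ (Finset.single_le_sum (f := fun s => ∑ y ∈ F, {d | δ y d = M.simple s}.ncard)
    (fun _ _ => Nat.zero_le _) (Finset.mem_univ s))
  exact Finset.single_le_sum (f := fun y => {d | δ y d = M.simple s}.ncard)
    (fun _ _ => Nat.zero_le _) hy

/-! ### chains as functions on the chambers -/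

/-- the function on the chambers -/
noncomputable def fz (M : CoxeterMatrix S) (δ : Δ → Δ → M.Group) (z : Finset S → Finset S → Set Δ → ℂ)
    (U T : Finset S) (x : Δ) : ℂ :=
  z U T (residue M δ U x) / ((residue M δ U x).ncard : ℂ)

theorem memlp_fz (h : IsBuilding M δ) (hf : ∀ s c, {d | δ c d = M.simple s}.Finite) {i : ℕ}
    {z : Finset S → Finset S → Set Δ → ℂ} (hz : IsChB M δ i z) (U T : Finset S) :
    Memℓp (fz M δ z U T) 2 := by
  classical
  have h2 : (2 : ENNReal).toReal = 2 := by norm_num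
  apply memℓp_gen
  rw [h2]
  have hnn : ∀ x, 0 ≤ ‖fz M δ z U T x‖ ^ (2 : ℝ) := fun x => by positivity
  refine summable_of_sum_le hnn (c := ∑' R, ‖z U T R‖ ^ 2) fun A => ?_
  have h1 : ∑ x ∈ A, ‖fz M δ z U T x‖ ^ (2 : ℝ)
      ≤ ∑ R ∈ A.image (residue M δ U), ‖z U T R‖ ^ 2 := by
    rw [← Finset.sum_fiberwise_of_maps_to (g := residue M δ U) (t := A.image (residue M δ U))
      (fun x hx => Finset.mem_image_of_mem _ hx)]
    apply Finset.sum_le_sum
    intro R hR
    obtain ⟨x₀, hx₀, rfl⟩ := Finset.mem_image.1 hR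
    by_cases h0 : z U T (residue M δ U x₀) = 0
    · rw [h0]
      apply le_of_eq
      rw [norm_zero]
      rw [show (0 : ℝ) ^ 2 = 0 by norm_num]
      apply Finset.sum_eq_zero
      intro x hx
      rw [Finset.mem_filter] at hx
      rw [fz, hx.2, h0, zero_div, norm_zero]
      exact Real.zero_rpow (by norm_num)
    · obtain ⟨hUT, hT, _, _⟩ := hz.supp _ _ _ h0
      have hfin : (residue M δ U x₀).Finite := residue_finite h hf (sph_sub hUT hT) x₀
      set n := (residue M δ U x₀).ncard with hn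
      have hnpos : 0 < n := res_ncard_pos h hfin
      have hn1 : (1 : ℝ) ≤ n := by exact_mod_cast hnpos
      have h3 : ∀ x ∈ A.filter (fun x => residue M δ U x = residue M δ U x₀),
          ‖fz M δ z U T x‖ ^ (2 : ℝ) ≤ ‖z U T (residue M δ U x₀)‖ ^ 2 / n ^ 2 := by
        intro x hx
        rw [Finset.mem_filter] at hx
        rw [fz, hx.2, ← hn, norm_div, Complex.norm_natCast]
        apply le_of_eq
        rw [show ((2 : ℝ)) = ((2 : ℕ) : ℝ) by norm_num, Real.rpow_natCast, div_pow]
      refine (Finset.sum_le_card_nsmul _ _ _ h3).trans ?_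
      have h4 : (A.filter (fun x => residue M δ U x = residue M δ U x₀)).card ≤ n := by
        rw [hn, Set.ncard_eq_toFinset_card _ hfin]
        apply Finset.card_le_card
        intro x hx
        rw [Finset.mem_filter] at hx
        rw [Set.Finite.mem_toFinset, ← hx.2]
        exact mem_residue_self h U x
      rw [nsmul_eq_mul]
      have h5 : ((A.filter (fun x => residue M δ U x = residue M δ U x₀)).card : ℝ) ≤ n := by
        exact_mod_cast h4
      have h6 : (0 : ℝ) ≤ ‖z U T (residue M δ U x₀)‖ ^ 2 / n ^ 2 := by positivity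
      refine (mul_le_mul_of_nonneg_right h5 h6).trans ?_
      have h7 : (n : ℝ) * (‖z U T (residue M δ U x₀)‖ ^ 2 / n ^ 2)
          = ‖z U T (residue M δ U x₀)‖ ^ 2 / n := by
        have : (n : ℝ) ≠ 0 := by positivity
        field_simp
      rw [h7]
      exact div_le_self (by positivity) hn1
  exact h1.trans ((hz.l2 U T).sum_le_tsum _ fun R _ => by positivity)

/-- the elements of `ℓ²` -/
noncomputable def Fz (h : IsBuilding M δ) (hf : ∀ s c, {d | δ c d = M.simple s}.Finite) {i : ℕ}
    {z : Finset S → Finset S → Set Δ → ℂ} (hz : IsChB M δ i z) (U T : Finset S) : LD Δ :=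
  ⟨fz M δ z U T, memlp_fz h hf hz U T⟩

theorem Fz_apply (h : IsBuilding M δ) (hf : ∀ s c, {d | δ c d = M.simple s}.Finite) {i : ℕ}
    {z : Finset S → Finset S → Set Δ → ℂ} (hz : IsChB M δ i z) (U T : Finset S) (x : Δ) :
    (Fz h hf hz U T) x = z U T (residue M δ U x) / ((residue M δ U x).ncard : ℂ) := rfl

theorem Fz_mem (h : IsBuilding M δ) (hf : ∀ s c, {d | δ c d = M.simple s}.Finite) {i : ℕ}
    {z : Finset S → Finset S → Set Δ → ℂ} (hz : IsChB M δ i z) (U T : Finset S) :
    Fz h hf hz U T ∈ KT M δ U := by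
  intro c d hcd
  rw [Fz_apply, Fz_apply, res_eq h hcd]

theorem Fz_ch (h : IsBuilding M δ) (hf : ∀ s c, {d | δ c d = M.simple s}.Finite) {i : ℕ}
    {z : Finset S → Finset S → Set Δ → ℂ} (hz : IsChB M δ i z) : Ch (Sph M) i (Fz h hf hz) := by
  intro A T h0
  by_contra h1
  apply h0
  refine lp.ext (funext fun x => ?_)
  rw [lp.coeFn_zero, Pi.zero_apply, Fz_apply]
  have : z A T (residue M δ A x) = 0 := by
    by_contra h2
    obtain ⟨a, b, c, _⟩ := hz.supp _ _ _ h2
    exact h1 ⟨a, b, c⟩
  rw [this, zero_div]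

theorem sgB_eq (ν : S → ℕ) (U T : Finset S) (v : S) : sgB ν U T v = (sg ν (T \ U) v : ℂ) := by
  unfold sgB sg
  push_cast
  rfl

theorem z_zero {i : ℕ} {z : Finset S → Finset S → Set Δ → ℂ} (hz : IsChB M δ i z) {U T : Finset S}
    (hT : ¬ Sph M T) (R : Set Δ) : z U T R = 0 := by
  by_contra h0
  exact hT (hz.supp _ _ _ h0).2.1

theorem bdB_zero_of_not {i : ℕ} {z : Finset S → Finset S → Set Δ → ℂ} (hz : IsChB M δ i z)
    (ν : S → ℕ) {U T : Finset S} (hT : ¬ Sph M T) (R : Set Δ) : bdB M δ ν z U T R = 0 := by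
  classical
  unfold bdB
  split_ifs
  · have h1 : ∑ v ∈ Tᶜ, sgB ν U T v * z U (insert v T) R = 0 := by
      apply Finset.sum_eq_zero
      intro v _
      rw [z_zero hz (fun h => hT (sph_sub (Finset.subset_insert v T) h)), mul_zero]
    have h2 : ∑ v ∈ U, sgB ν U T v * ∑ᶠ R' ∈ {R' | R' ⊆ R ∧ ∃ x, R' = residue M δ (U.erase v) x},
        z (U.erase v) T R' = 0 := by
      apply Finset.sum_eq_zero
      intro v _
      have : ∑ᶠ R' ∈ {R' | R' ⊆ R ∧ ∃ x, R' = residue M δ (U.erase v) x},
        z (U.erase v) T R' = 0 := by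
        apply finsum_mem_eq_zero_of_forall_eq_zero
        intro R' _
        exact z_zero hz hT R'
      rw [this, mul_zero]
    rw [h1, h2, sub_zero]
  · rfl

/-- the mean over a residue -/
theorem PT_Fz (h : IsBuilding M δ) (hf : ∀ s c, {d | δ c d = M.simple s}.Finite) {i : ℕ}
    {z : Finset S → Finset S → Set Δ → ℂ} (hz : IsChB M δ i z) {U T V : Finset S} (hVU : V ⊆ U)
    (hU : Sph M U) (x : Δ) :
    (PT M δ U (Fz h hf hz V T)) x = (∑ᶠ R' ∈ {R' | R' ⊆ residue M δ U x ∧
      ∃ x, R' = residue M δ V x}, z V T R') / ((residue M δ U x).ncard : ℂ) := by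
  classical
  have hfin : (residue M δ U x).Finite := residue_finite h hf hU x
  have hVs : Sph M V := sph_sub hVU hU
  rw [PT_avg h x hfin]
  rw [show ((hfin.toFinset.card : ℂ)) = ((residue M δ U x).ncard : ℂ) by
    rw [Set.ncard_eq_toFinset_card _ hfin]]
  rw [div_eq_inv_mul]
  congr 1
  -- the subresidues
  have hsub : ∀ d, d ∈ hfin.toFinset → residue M δ V d ⊆ residue M δ U x := by
    intro d hd e he
    rw [Set.Finite.mem_toFinset, mem_res] at hd
    rw [mem_res] at he ⊢
    exact h.par_trans hd (par_le hVU he)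
  have hset : {R' | R' ⊆ residue M δ U x ∧ ∃ x, R' = residue M δ V x}
      = ((hfin.toFinset.image (residue M δ V) : Finset (Set Δ)) : Set (Set Δ)) := by
    ext R'
    rw [Finset.coe_image]
    constructor
    · rintro ⟨h1, y, rfl⟩
      refine ⟨y, ?_, rfl⟩
      rw [Finset.mem_coe, Set.Finite.mem_toFinset]
      exact h1 (mem_residue_self h V y)
    · rintro ⟨y, hy, rfl⟩
      exact ⟨hsub y hy, y, rfl⟩
  rw [hset, finsum_mem_coe_finset]
  rw [← Finset.sum_fiberwise_of_maps_to (g := residue M δ V)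
    (t := hfin.toFinset.image (residue M δ V)) (fun x hx => Finset.mem_image_of_mem _ hx)]
  apply Finset.sum_congr rfl
  intro R hR
  obtain ⟨x₀, hx₀, rfl⟩ := Finset.mem_image.1 hR
  have hfin₀ : (residue M δ V x₀).Finite := residue_finite h hf hVs x₀
  have h1 : (hfin.toFinset.filter fun d => residue M δ V d = residue M δ V x₀) = hfin₀.toFinset := by
    ext d
    rw [Finset.mem_filter, Set.Finite.mem_toFinset hfin₀]
    constructor
    · rintro ⟨_, h2⟩
      rw [← h2]
      exact mem_residue_self h V d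
    · intro h2
      refine ⟨?_, (res_eq h h2).symm⟩
      rw [Set.Finite.mem_toFinset]
      exact hsub x₀ hx₀ h2
  have h2 : ∀ d ∈ hfin.toFinset.filter (fun d => residue M δ V d = residue M δ V x₀),
      (Fz h hf hz V T) d = z V T (residue M δ V x₀) / ((residue M δ V x₀).ncard : ℂ) := by
    intro d hd
    rw [Finset.mem_filter] at hd
    rw [Fz_apply, hd.2]
  rw [Finset.sum_congr rfl h2, Finset.sum_const, h1, ← Set.ncard_eq_toFinset_card _ hfin₀,
    nsmul_eq_mul]
  have h3 : ((residue M δ V x₀).ncard : ℂ) ≠ 0 := by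
    exact_mod_cast (res_ncard_pos h hfin₀).ne'
  rw [mul_div_cancel₀ _ h3]

/-- the boundary -/
theorem cbd_Fz (h : IsBuilding M δ) (hf : ∀ s c, {d | δ c d = M.simple s}.Finite) {i : ℕ}
    {z : Finset S → Finset S → Set Δ → ℂ} (hz : IsChB M δ i z) (ν : S → ℕ) (U T : Finset S) (x : Δ) :
    (cbd ν (fun A => ((PT M δ A : LD Δ →L[ℂ] LD Δ) : LD Δ →ₗ[ℂ] LD Δ)) (Fz h hf hz) U T) x
      = bdB M δ ν z U T (residue M δ U x) / ((residue M δ U x).ncard : ℂ) := by
  classical
  by_cases hUT : U ⊆ T
  swap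
  · rw [cbd_of_not ν _ _ hUT, lp.coeFn_zero, Pi.zero_apply]
    unfold bdB
    rw [if_neg fun h1 => hUT h1.1, zero_div]
  by_cases hT : Sph M T
  swap
  · rw [bdB_zero_of_not hz ν hT, zero_div, cbd_of_subset ν _ _ hUT]
    have h1 : ∑ v ∈ Tᶜ, sg ν (T \ U) v • Fz h hf hz U (insert v T) = 0 := by
      apply Finset.sum_eq_zero
      intro v _
      have : Fz h hf hz U (insert v T) = 0 := by
        by_contra h0
        exact hT (sph_sub (Finset.subset_insert v T) (Fz_ch h hf hz _ _ h0).2.1)
      rw [this, smul_zero]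
    have h2 : ∑ v ∈ U, sg ν (T \ U) v •
        ((PT M δ U : LD Δ →L[ℂ] LD Δ) : LD Δ →ₗ[ℂ] LD Δ) (Fz h hf hz (U.erase v) T) = 0 := by
      apply Finset.sum_eq_zero
      intro v _
      have : Fz h hf hz (U.erase v) T = 0 := by
        by_contra h0
        exact hT (Fz_ch h hf hz _ _ h0).2.1
      rw [this, map_zero, smul_zero]
    rw [h1, h2, sub_zero, lp.coeFn_zero, Pi.zero_apply]
  have hU : Sph M U := sph_sub hUT hT
  rw [cbd_of_subset ν _ _ hUT]
  unfold bdB
  rw [if_pos ⟨hUT, x, rfl⟩, sub_div, lp.coeFn_sub, Pi.sub_apply]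
  congr 1
  · rw [lp.coeFn_sum, Finset.sum_apply, Finset.sum_div]
    apply Finset.sum_congr rfl
    intro v _
    rw [sgB_eq, ← Int.cast_smul_eq_zsmul ℂ, lp.coeFn_smul, Pi.smul_apply, Fz_apply, smul_eq_mul,
      mul_div_assoc]
  · rw [lp.coeFn_sum, Finset.sum_apply, Finset.sum_div]
    apply Finset.sum_congr rfl
    intro v hv
    rw [sgB_eq, ← Int.cast_smul_eq_zsmul ℂ, lp.coeFn_smul, Pi.smul_apply, smul_eq_mul, mul_div_assoc]
    congr 1
    exact PT_Fz h hf hz (Finset.erase_subset v U) hU x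

/-! ### functions as chains -/

open Classical in
/-- the chain of the functions `g` -/
noncomputable def yg (M : CoxeterMatrix S) (δ : Δ → Δ → M.Group)
    (g : Finset S → Finset S → LD Δ) (U T : Finset S) (R : Set Δ) : ℂ :=
  if h : ∃ x, R = residue M δ U x then (R.ncard : ℂ) * (g U T) h.choose else 0

theorem yg_res (h : IsBuilding M δ) (g : Finset S → Finset S → LD Δ)
    {U T : Finset S} (hgU : g U T ∈ KT M δ U) (x : Δ) :
    yg M δ g U T (residue M δ U x) = ((residue M δ U x).ncard : ℂ) * (g U T) x := by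
  have h1 : ∃ y, residue M δ U x = residue M δ U y := ⟨x, rfl⟩
  unfold yg
  rw [dif_pos h1]
  congr 1
  refine hgU _ _ ?_
  have h2 := h1.choose_spec
  have h3 : x ∈ residue M δ U h1.choose := by
    rw [← h2]
    exact mem_residue_self h U x
  exact h3

theorem isCh_yg (h : IsBuilding M δ) (hf : ∀ s c, {d | δ c d = M.simple s}.Finite) {m : ℕ}
    (hm : ∀ s c, {d | δ c d = M.simple s}.ncard ≤ m) {i : ℕ}
    {g : Finset S → Finset S → LD Δ} (hg : Ch (Sph M) i g) :
    IsChB M δ i (yg M δ g) := by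
  classical
  refine ⟨fun U T R h0 => ?_, fun U T => ?_⟩
  · unfold yg at h0
    by_cases h1 : ∃ x, R = residue M δ U x
    · rw [dif_pos h1] at h0
      have h2 : g U T ≠ 0 := by
        intro h2
        apply h0
        rw [h2, lp.coeFn_zero, Pi.zero_apply, mul_zero]
      obtain ⟨a, b, c⟩ := hg _ _ h2
      exact ⟨a, b, c, h1⟩
    · exact absurd (dif_neg h1) h0
  · by_cases h0 : g U T = 0
    · have : (fun R => ‖yg M δ g U T R‖ ^ 2) = fun _ => 0 := by
        funext R
        unfold yg
        split_ifs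
        · rw [h0, lp.coeFn_zero, Pi.zero_apply, mul_zero, norm_zero]
          norm_num
        · rw [norm_zero]
          norm_num
      rw [this]
      exact summable_zero
    · obtain ⟨a, b, _⟩ := hg _ _ h0
      obtain ⟨N, hN⟩ := exists_res_bound h hf hm (sph_sub a b)
      have hs : Summable fun d => ‖(g U T) d‖ ^ 2 := by
        have h2 := (lp.memℓp (g U T)).summable (by norm_num)
        simpa using h2
      -- the bound
      set k : Set Δ → ℝ := fun R =>
        if h : ∃ x, R = residue M δ U x then ‖(g U T) h.choose‖ ^ 2 else 0 with hk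
      have hks : Summable k := by
        set ι : {R : Set Δ // ∃ x, R = residue M δ U x} → Set Δ := fun R => R.1 with hι
        have h1 : Summable (k ∘ ι) := by
          have h2 : k ∘ ι = (fun d => ‖(g U T) d‖ ^ 2) ∘
              fun R : {R : Set Δ // ∃ x, R = residue M δ U x} => R.2.choose := by
            funext R
            show (if h : ∃ x, R.1 = residue M δ U x then ‖(g U T) h.choose‖ ^ 2 else 0) = _
            rw [dif_pos R.2]
            rfl
          rw [h2]
          refine hs.comp_injective ?_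
          intro R R' hRR
          have h3 := R.2.choose_spec
          have h4 := R'.2.choose_spec
          have hRR' : R.2.choose = R'.2.choose := hRR
          rw [← hRR'] at h4
          exact Subtype.ext (h3.trans h4.symm)
        refine (Function.Injective.summable_iff (f := k) (g := ι) Subtype.val_injective ?_).1 h1
        intro R hR
        apply dif_neg
        intro h2
        exact hR ⟨⟨R, h2⟩, rfl⟩
      refine Summable.of_nonneg_of_le (fun R => by positivity) (fun R => ?_)
        (hks.mul_left ((N : ℝ) ^ 2))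
      show ‖yg M δ g U T R‖ ^ 2 ≤ (N : ℝ) ^ 2 * k R
      unfold yg
      rw [hk]
      by_cases h1 : ∃ x, R = residue M δ U x
      · simp only [dif_pos h1]
        rw [norm_mul, Complex.norm_natCast, mul_pow]
        apply mul_le_mul_of_nonneg_right _ (by positivity)
        have h2 : R.ncard ≤ N := by
          obtain ⟨x, hx⟩ := h1
          rw [hx]
          exact hN x
        have h3 : (R.ncard : ℝ) ≤ N := by exact_mod_cast h2
        exact pow_le_pow_left₀ (by positivity) h3 2
      · simp only [dif_neg h1]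
        rw [norm_zero, mul_zero]
        norm_num

/-- **The reduced `ℓ²`-homology of the Davis realization vanishes in degree `i` if all full subcomplexes of the
nerve are exact in the sizes `≥ i`.** -/
theorem l2zeroB_of_ex (h : IsBuilding M δ) (hf : ∀ s c, {d | δ c d = M.simple s}.Finite) {m : ℕ}
    (hm : ∀ s c, {d | δ c d = M.simple s}.ncard ≤ m) (i : ℕ)
    (hL : ∀ ν : S → ℕ, Function.Injective ν → ∀ j, i ≤ j → ∀ U : Finset S,
      Ex ℂ ν (fun σ => Sph M σ ∧ σ.card = j ∧ σ ⊆ U) (fun σ => Sph M σ ∧ σ.card = j + 1 ∧ σ ⊆ U)) :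
    L2ZeroB M δ i := by
  classical
  intro ν hν z hz hz0 ε hε
  have hS : ∀ T U : Finset S, T ⊆ U → Sph M U → Sph M T := fun T U => sph_sub
  have hex : ∀ A, Sph M A → Ex ℂ ν (fun σ => Sph M (σ ∪ A) ∧ σ.card = i ∧ Disjoint σ A)
      (fun σ => Sph M (σ ∪ A) ∧ σ.card = i + 1 ∧ Disjoint σ A) := by
    intro A _ c hc hc0
    obtain ⟨y, h1, h2⟩ := ex_links (Sph M) hS ν hν i (hL ν hν) A i le_rfl univ c (fun σ h0 => by
      obtain ⟨a, b, d⟩ := hc σ h0
      exact ⟨a, b, d, Finset.subset_univ _⟩) hc0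
    refine ⟨y, fun σ h0 => ?_, h2⟩
    obtain ⟨a, b, d, _⟩ := h1 σ h0
    exact ⟨a, b, d⟩
  obtain ⟨g, hg1, hg2, hg3⟩ := exact_links (Sph M) hS ν hν i hex
    (fun A => ((PT M δ A : LD Δ →L[ℂ] LD Δ) : LD Δ →ₗ[ℂ] LD Δ))
    (fun A x => by
      have := PT_nest (M := M) (δ := δ) (Finset.Subset.refl A)
      exact congrArg (fun L : LD Δ →L[ℂ] LD Δ => L x) this)
    (fun A v hv x => by
      have := PT_nest' (M := M) (δ := δ) (Finset.erase_subset v A)
      exact congrArg (fun L : LD Δ →L[ℂ] LD Δ => L x) this)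
    (Fz h hf hz) (Fz_ch h hf hz) (fun A T => PT_eq_self_iff.2 (Fz_mem h hf hz A T)) (by
      funext U T
      refine lp.ext (funext fun x => ?_)
      rw [cbd_Fz, hz0]
      show (0 : ℂ) / _ = ((0 : LD Δ)) x
      rw [zero_div, lp.coeFn_zero, Pi.zero_apply])
  have hgK : ∀ U T, g U T ∈ KT M δ U := fun U T => PT_eq_self_iff.1 (hg2 U T)
  have hy := isCh_yg h hf hm hg1
  refine ⟨yg M δ g, hy, ?_⟩
  -- the functions of the chain are `g`
  have hFg : Fz h hf hy = g := by
    funext U T
    refine lp.ext (funext fun x => ?_)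
    rw [Fz_apply]
    by_cases h0 : g U T = 0
    · have : yg M δ g U T (residue M δ U x) = 0 := by
        rw [yg_res h g (hgK U T), h0, lp.coeFn_zero, Pi.zero_apply, mul_zero]
      rw [this, h0, lp.coeFn_zero, Pi.zero_apply, zero_div]
    · obtain ⟨a, b, _⟩ := hg1 _ _ h0
      rw [yg_res h g (hgK U T)]
      have h3 : ((residue M δ U x).ncard : ℂ) ≠ 0 := by
        exact_mod_cast (res_ncard_pos h (residue_finite h hf (sph_sub a b) x)).ne'
      rw [mul_div_cancel_left₀ _ h3]
  have hbd : ∀ U T R, bdB M δ ν (yg M δ g) U T R = z U T R := by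
    intro U T R
    by_cases hT : Sph M T
    swap
    · rw [bdB_zero_of_not hy ν hT, z_zero hz hT]
    by_cases h1 : U ⊆ T ∧ ∃ x, R = residue M δ U x
    swap
    · unfold bdB
      rw [if_neg h1]
      by_contra h0
      obtain ⟨a, _, _, b⟩ := hz.supp _ _ _ (Ne.symm h0)
      exact h1 ⟨a, b⟩
    obtain ⟨hUT, x, rfl⟩ := h1
    have h2 := cbd_Fz h hf hy ν U T x
    rw [hFg, hg3, Fz_apply] at h2
    have h3 : ((residue M δ U x).ncard : ℂ) ≠ 0 := by
      exact_mod_cast (res_ncard_pos h (residue_finite h hf (sph_sub hUT hT) x)).ne'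
    rw [div_left_inj' h3] at h2
    exact h2.symm
  have hzero : ∑ U : Finset S, ∑ T : Finset S, ∑' R : Set Δ,
      ‖z U T R - bdB M δ ν (yg M δ g) U T R‖ ^ 2 = 0 := by
    apply Finset.sum_eq_zero
    intro U _
    apply Finset.sum_eq_zero
    intro T _
    have : (fun R => ‖z U T R - bdB M δ ν (yg M δ g) U T R‖ ^ 2) = fun _ => (0 : ℝ) := by
      funext R
      rw [hbd, sub_self, norm_zero]
      norm_num
    rw [this, tsum_zero]
  rw [hzero]
  exact hε

end Pool.Agent.H8.BD
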