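import Pool.Agent.H8.BD.Mat

/-!
# Project BD: the contraction over a ring generated by commuting idempotents
-/

set_option autoImplicit false
set_option linter.unusedSectionVars false

open Finset

namespace Pool.Agent.H8.BD

open Pool.Agent.H78.RA

variable {S : Type} [Fintype S] [DecidableEq S]

section

variable {C : Type*} [CommRing C] (p : S → C)

/-- the atoms of the Boolean algebra generated by the idempotents `p v` -/
def ee (A : Finset S) : C := (∏ v ∈ A, p v) * ∏ v ∈ Aᶜ, (1 - p v)

theorem sum_ee : ∑ A : Finset S, ee p A = 1 := by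
  have h := Finset.prod_add (fun v => p v) (fun v => 1 - p v) (univ : Finset S)
  have h1 : ∏ v : S, (p v + (1 - p v)) = 1 := by
    apply Finset.prod_eq_one
    intro v _
    ring
  rw [h1] at h
  rw [h, Finset.powerset_univ]
  rfl

variable {p} (hp : ∀ v, p v * p v = p v)

include hp

theorem mul_ee_mem {A : Finset S} {v : S} (hv : v ∈ A) : p v * ee p A = ee p A := by
  unfold ee
  rw [← Finset.mul_prod_erase A p hv, ← mul_assoc, ← mul_assoc, hp]

theorem mul_ee_not {A : Finset S} {v : S} (hv : v ∉ A) : p v * ee p A = 0 := by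
  unfold ee
  have h1 : v ∈ Aᶜ := Finset.mem_compl.2 hv
  rw [← Finset.mul_prod_erase Aᶜ (fun v => 1 - p v) h1]
  have h2 : p v * ((∏ v ∈ A, p v) * ((1 - p v) * ∏ x ∈ Aᶜ.erase v, (1 - p x)))
      = (p v * (1 - p v)) * ((∏ v ∈ A, p v) * ∏ x ∈ Aᶜ.erase v, (1 - p x)) := by ring
  rw [h2, mul_sub, mul_one, hp, sub_self, zero_mul]

theorem ee_self_mul {A : Finset S} : (∏ v ∈ A, (1 - p v)) * (∏ v ∈ A, (1 - p v)) = ∏ v ∈ A, (1 - p v) := by
  rw [← Finset.prod_mul_distrib]
  apply Finset.prod_congr rfl
  intro v _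
  rw [sub_mul, one_mul, mul_sub, mul_one, hp, sub_self, sub_zero]

theorem ee_mul_ee (A B : Finset S) : ee p A * ee p B = if A = B then ee p A else 0 := by
  by_cases h : A = B
  · subst h
    rw [if_pos rfl]
    have h1 : (∏ v ∈ A, p v) * (∏ v ∈ A, p v) = ∏ v ∈ A, p v := by
      rw [← Finset.prod_mul_distrib]
      exact Finset.prod_congr rfl fun v _ => hp v
    unfold ee
    rw [mul_mul_mul_comm, h1, ee_self_mul hp]
  · rw [if_neg h]
    have : ∃ v, ¬ (v ∈ A ↔ v ∈ B) := by
      by_contra hc
      push Not at hc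
      exact h (Finset.ext hc)
    obtain ⟨v, hv⟩ := this
    by_cases hA : v ∈ A
    · have hB : v ∉ B := fun hB => hv ⟨fun _ => hB, fun _ => hA⟩
      rw [← mul_ee_mem hp hA, mul_assoc, mul_comm (ee p A), ← mul_assoc, mul_ee_not hp hB, zero_mul]
    · have hB : v ∈ B := by
        by_contra hB
        exact hv ⟨fun h => absurd h hA, fun h => absurd h hB⟩
      rw [← mul_ee_mem hp hB, mul_left_comm, ← mul_assoc, mul_ee_not hp hA, zero_mul]

end

section

variable {C : Type*} [CommRing C] [Algebra ℂ C] {p : Finset S → C} {Sph : Finset S → Prop}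

/-- projections which commute exactly -/
structure Com {Q : Type*} [Ring Q] (Sph : Finset S → Prop) (p : Finset S → Q) : Prop where
  one : p ∅ = 1
  mul : ∀ v T, p {v} * p T = p (insert v T)
  zero : ∀ T, ¬ Sph T → p T = 0

theorem Com.idem {Q : Type*} [Ring Q] {p : Finset S → Q} (h : Com Sph p) (v : S) :
    p {v} * p {v} = p {v} := by
  rw [h.mul]
  congr 1
  simp

theorem Com.eq_prod (h : Com Sph p) (T : Finset S) : p T = ∏ v ∈ T, p {v} := by
  induction T using Finset.induction_on with
  | empty => rw [h.one, Finset.prod_empty]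
  | insert v T hv ih => rw [Finset.prod_insert hv, ← ih, h.mul]

theorem ch_of {A T : Finset S} (h : T ⊆ A) : ch A T = 1 := if_pos h

theorem ch_not {A T : Finset S} (h : ¬ T ⊆ A) : ch A T = 0 := if_neg h

theorem Com.mul_ee (h : Com Sph p) (A T : Finset S) :
    p T * ee (fun v => p {v}) A = ch A T • ee (fun v => p {v}) A := by
  rw [h.eq_prod]
  induction T using Finset.induction_on with
  | empty =>
    rw [Finset.prod_empty, one_mul, ch_of (Finset.empty_subset _), one_smul]
  | insert v T hv ih =>
    rw [Finset.prod_insert hv, mul_assoc, ih, mul_smul_comm]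
    by_cases hA : v ∈ A
    · rw [mul_ee_mem (p := fun v => p {v}) h.idem hA]
      congr 1
      by_cases hT : T ⊆ A
      · rw [ch_of hT, ch_of (Finset.insert_subset hA hT)]
      · rw [ch_not hT, ch_not fun h0 => hT ((Finset.subset_insert v T).trans h0)]
    · rw [mul_ee_not (p := fun v => p {v}) h.idem hA, smul_zero,
        ch_not fun h0 => hA (h0 (Finset.mem_insert_self _ _)), zero_smul]

theorem Com.ee_zero (h : Com Sph p) {A : Finset S} (hA : ¬ Sph A) : ee (fun v => p {v}) A = 0 := by
  unfold ee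
  rw [← h.eq_prod, h.zero A hA, zero_mul]

/-- multiplication of the boundary matrix by an atom -/
theorem Com.dm_ee (h : Com Sph p) (ν : S → ℕ) (A : Finset S) (J K : Finset S × Finset S) :
    dm ν p J K * ee (fun v => p {v}) A = dm ν (ch A) J K • ee (fun v => p {v}) A := by
  rw [dm_apply, dm_apply, sub_mul, smul_mul_assoc, one_mul, smul_mul_assoc, h.mul_ee, sub_smul]
  congr 1
  · rw [smul_assoc, one_smul]
  · rw [smul_assoc]

open Classical in
/-- the identity of the contraction -/
theorem key_id (h : Com Sph p) (ν : S → ℕ) (i : ℕ)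
    (η κ : Finset S → Matrix (Finset S × Finset S) (Finset S × Finset S) ℂ)
    (hη : ∀ A, Sph A → ∀ L K, η A L K ≠ 0 → L.1 ⊆ A)
    (hκ : ∀ A, Sph A → ∀ J K, IC Sph i K → K.1 ⊆ A →
        (dm ν (ch A) * η A + κ A * dm ν (ch A)) J K = if J = K then 1 else 0)
    (J K : Finset S × Finset S) (hK : IC Sph i K) :
    (∑ L, dm ν p J L * (p L.1 * (∑ A : Finset S, if Sph A then η A L K • ee (fun v => p {v}) A else 0)))
        * p K.1
      + (∑ M, (∑ A : Finset S, if Sph A then κ A J M • ee (fun v => p {v}) A else 0) * dm ν p M K) * p K.1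
      = if J = K then p K.1 else 0 := by
  have hall : ∀ x y : C, (∀ A, x * ee (fun v => p {v}) A = y * ee (fun v => p {v}) A) → x = y := by
    intro x y h
    rw [← mul_one x, ← mul_one y, ← sum_ee (fun v => p {v}), Finset.mul_sum, Finset.mul_sum]
    exact Finset.sum_congr rfl fun A _ => h A
  apply hall
  intro A
  by_cases hA : Sph A
  swap
  · rw [h.ee_zero hA, mul_zero, mul_zero]
  set e := ee (fun v => p {v}) A with he
  have hs : ∀ f : Finset S → ℂ,
      (∑ B : Finset S, if Sph B then f B • ee (fun v => p {v}) B else 0) * e = f A • e := by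
    intro f
    rw [Finset.sum_mul, Finset.sum_eq_single A]
    · rw [if_pos hA, smul_mul_assoc, he, ee_mul_ee (p := fun v => p {v}) h.idem, if_pos rfl]
    · intro B _ hB
      split_ifs
      · rw [smul_mul_assoc, he, ee_mul_ee (p := fun v => p {v}) h.idem, if_neg hB, smul_zero]
      · rw [zero_mul]
    · intro h
      exact absurd (Finset.mem_univ _) h
  have e1 : ∀ L : Finset S × Finset S, dm ν p J L * (p L.1 *
      (∑ A : Finset S, if Sph A then η A L K • ee (fun v => p {v}) A else 0)) * e
      = (dm ν (ch A) J L * η A L K) • e := by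
    intro L
    rw [mul_assoc, mul_assoc, hs fun B => η B L K, mul_smul_comm, h.mul_ee, smul_smul, mul_smul_comm,
      h.dm_ee, smul_smul]
    congr 1
    by_cases h0 : η A L K = 0
    · rw [h0, zero_mul, zero_mul, mul_zero]
    · rw [ch_of (hη A hA L K h0)]
      ring
  have e2 : ∀ M : Finset S × Finset S,
      (∑ A : Finset S, if Sph A then κ A J M • ee (fun v => p {v}) A else 0) * dm ν p M K * e
      = (κ A J M * dm ν (ch A) M K) • e := by
    intro M
    rw [mul_assoc, h.dm_ee, mul_smul_comm, hs fun B => κ B J M, smul_smul, mul_comm]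
  have e3 : (∑ L, dm ν p J L * (p L.1 *
      (∑ A : Finset S, if Sph A then η A L K • ee (fun v => p {v}) A else 0))) * p K.1 * e
      = (ch A K.1 * (dm ν (ch A) * η A) J K) • e := by
    rw [mul_right_comm, Finset.sum_mul, Finset.sum_congr rfl fun L _ => e1 L, ← Finset.sum_smul,
      smul_mul_assoc, mul_comm e, h.mul_ee, smul_smul, Matrix.mul_apply, mul_comm]
  have e4 : (∑ M, (∑ A : Finset S, if Sph A then κ A J M • ee (fun v => p {v}) A else 0) * dm ν p M K)
      * p K.1 * e = (ch A K.1 * (κ A * dm ν (ch A)) J K) • e := by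
    rw [mul_right_comm, Finset.sum_mul, Finset.sum_congr rfl fun M _ => e2 M, ← Finset.sum_smul,
      smul_mul_assoc, mul_comm e, h.mul_ee, smul_smul, Matrix.mul_apply, mul_comm]
  rw [add_mul, e3, e4, ← add_smul, ← mul_add]
  by_cases hKA : K.1 ⊆ A
  · have h2 := hκ A hA J K hK hKA
    rw [Matrix.add_apply] at h2
    rw [h2, ch_of hKA]
    split_ifs
    · rw [one_mul, h.mul_ee, ch_of hKA]
    · rw [mul_zero, zero_smul, zero_mul]
  · rw [ch_not hKA, zero_mul, zero_smul]
    split_ifs
    · rw [h.mul_ee, ch_not hKA, zero_smul]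
    · rw [zero_mul]

end

section

variable {Q : Type*} [Ring Q] [Algebra ℂ Q] {p : Finset S → Q} {Sph : Finset S → Prop}

open scoped IsMulCommutative in
open Classical in
/-- the identity of the contraction for commuting projections in a ring which is not commutative -/
theorem key_id_nc (h : Com Sph p) (hc : ∀ T U, p T * p U = p U * p T) (ν : S → ℕ) (i : ℕ) :
    ∃ e : Finset S → Q, ∀ (η κ : Finset S → Matrix (Finset S × Finset S) (Finset S × Finset S) ℂ)
    (_ : ∀ A, Sph A → ∀ L K, η A L K ≠ 0 → L.1 ⊆ A)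
    (_ : ∀ A, Sph A → ∀ J K, IC Sph i K → K.1 ⊆ A →
        (dm ν (ch A) * η A + κ A * dm ν (ch A)) J K = if J = K then 1 else 0)
    (J K : Finset S × Finset S) (_ : IC Sph i K),
    (∑ L, dm ν p J L * (p L.1 * (∑ A : Finset S, if Sph A then η A L K • e A else 0))) * p K.1
      + (∑ M, (∑ A : Finset S, if Sph A then κ A J M • e A else 0) * dm ν p M K) * p K.1
      = if J = K then p K.1 else 0 := by
  have hcomm : ∀ a ∈ Set.range p, ∀ b ∈ Set.range p, a * b = b * a := by
    rintro _ ⟨u, rfl⟩ _ ⟨v, rfl⟩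
    exact hc u v
  have _inst := Algebra.isMulCommutative_adjoin ℂ hcomm
  let C := Algebra.adjoin ℂ (Set.range p)
  let pc : Finset S → C := fun T => ⟨p T, Algebra.subset_adjoin ⟨T, rfl⟩⟩
  have h1 : Com Sph pc := by
    refine ⟨Subtype.ext h.one, fun v T => Subtype.ext (h.mul v T), fun T hT => Subtype.ext (h.zero T hT)⟩
  refine ⟨fun A => (ee (fun v => pc {v}) A : C).1, ?_⟩
  intro η κ hη hκ J K hK
  have h6 := congrArg C.val (key_id h1 ν i η κ hη hκ J K hK)
  have h7 : ∀ M K, C.val (dm ν pc M K) = dm ν p M K := by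
    intro M K
    rw [dm_apply, dm_apply, map_sub, map_zsmul, map_zsmul, map_one]
    rfl
  have h8 : ∀ T, C.val (pc T) = p T := fun T => rfl
  simp only [map_add, map_sum, map_mul, apply_ite C.val, map_smul, map_zero, h7, h8] at h6
  exact h6

end

end Pool.Agent.H8.BD
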