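import Pool.Agent.H8.BD.Defs

/-!
# Project BD: small angles between pairs give small angles
-/

set_option autoImplicit false
set_option linter.unusedSectionVars false

open Finset

namespace Pool.Agent.H8.BD

variable {S : Type} [Fintype S] [DecidableEq S]

variable {X : Type} [NormedAddCommGroup X] [NormedSpace ℂ X] {Sph : Finset S → Prop}
  {P : Finset S → X →L[ℂ] X} {ε : ℝ}

theorem Pairs.nest_apply (hP : Pairs Sph P ε) {T U : Finset S} (h : T ⊆ U) (x : X) :
    P T (P U x) = P U x := congrArg (fun f : X →L[ℂ] X => f x) (hP.nest T U h)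

theorem Pairs.nest'_apply (hP : Pairs Sph P ε) {T U : Finset S} (h : T ⊆ U) (x : X) :
    P U (P T x) = P U x := congrArg (fun f : X →L[ℂ] X => f x) (hP.nest' T U h)

theorem Pairs.norm_apply (hP : Pairs Sph P ε) (T : Finset S) (x : X) : ‖P T x‖ ≤ ‖x‖ := by
  have h := (P T).le_of_opNorm_le (hP.norm T) x
  rwa [one_mul] at h

theorem Pairs.sub_apply (hP : Pairs Sph P ε) {T U : Finset S} (h : T ⊆ U) (x : X) :
    ‖P U x - P T (P U x)‖ = 0 := by rw [hP.nest_apply h, sub_self, norm_zero]

/-- one step -/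
theorem Pairs.step (hP : Pairs Sph P ε) (hε : 0 ≤ ε) (h2 : ε ≤ 1 / 2) {k : S} {U : Finset S} (hk : k ∉ U)
    {C : ℝ} (hU : ∀ (x : X) (δ : ℝ), 0 ≤ δ → (∀ v ∈ U, ‖x - P {v} x‖ ≤ δ) → ‖x - P U x‖ ≤ C * δ)
    {g : X} (hg : P U g = g) :
    ‖P {k} g - P U (P {k} g)‖ ≤ C * (4 * ε * ‖g - P {k} g‖) := by
  apply hU
  · positivity
  intro i hi
  have hki : k ≠ i := fun h => hk (h ▸ hi)
  have h1 : P {i} g = g := by
    rw [← hg]
    exact hP.nest_apply (Finset.singleton_subset_iff.2 hi) g
  have h3 : P {k} g - P {k, i} g = (P {k} * P {i} - P {k, i}) (g - P {k, i} g) := by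
    have e1 : P {i} (P {k, i} g) = P {k, i} g :=
      hP.nest_apply (by simp) g
    have e2 : P {k} (P {k, i} g) = P {k, i} g := hP.nest_apply (by simp) g
    have e3 : P {k, i} (P {k, i} g) = P {k, i} g := hP.nest_apply subset_rfl g
    show _ = P {k} (P {i} (g - P {k, i} g)) - P {k, i} (g - P {k, i} g)
    rw [map_sub, map_sub, map_sub, h1, e1, e2, e3]
    abel
  have h4 : ‖P {k} g - P {k, i} g‖ ≤ ε * ‖g - P {k, i} g‖ := by
    rw [h3]
    exact (P {k} * P {i} - P {k, i}).le_of_opNorm_le (hP.pair k i hki) _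
  have h5 : ‖g - P {k, i} g‖ ≤ ‖g - P {k} g‖ + ‖P {k} g - P {k, i} g‖ := norm_sub_le_norm_sub_add_norm_sub _ _ _
  have h6 : ‖P {k} g - P {k, i} g‖ ≤ 2 * ε * ‖g - P {k} g‖ := by
    have a0 : 0 ≤ ‖P {k} g - P {k, i} g‖ := norm_nonneg _
    have a1 : 0 ≤ ‖g - P {k} g‖ := norm_nonneg _
    have a2 : ε * ‖g - P {k, i} g‖ ≤ ε * (‖g - P {k} g‖ + ‖P {k} g - P {k, i} g‖) :=
      mul_le_mul_of_nonneg_left h5 hε
    have a3 : ε * ‖P {k} g - P {k, i} g‖ ≤ 1 / 2 * ‖P {k} g - P {k, i} g‖ :=
      mul_le_mul_of_nonneg_right h2 a0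
    nlinarith
  have h7 : P {k} g - P {i} (P {k} g)
      = (P {k} g - P {k, i} g) - P {i} (P {k} g - P {k, i} g) := by
    have e1 : P {i} (P {k, i} g) = P {k, i} g := hP.nest_apply (by simp) g
    rw [map_sub, e1]
    abel
  rw [h7]
  refine (norm_sub_le _ _).trans ?_
  have h8 := hP.norm_apply {i} (P {k} g - P {k, i} g)
  linarith

/-- vectors close to all `P {v} x` are close to `P T x` -/
theorem Pairs.near [CompleteSpace X] (hP : Pairs Sph P ε) (hε : 0 ≤ ε) (n : ℕ) (hs : ε * 16 ^ (n + 1) ≤ 1) :
    ∀ T : Finset S, T.card ≤ n → ∀ (x : X) (δ : ℝ), 0 ≤ δ → (∀ v ∈ T, ‖x - P {v} x‖ ≤ δ) →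
      ‖x - P T x‖ ≤ 16 ^ T.card * δ := by
  intro T
  induction T using Finset.induction_on with
  | empty =>
    intro _ x δ hδ _
    rw [hP.one]
    simpa using hδ
  | insert k U hk ih =>
    intro hc x δ hδ hx
    rw [Finset.card_insert_of_notMem hk] at hc
    have ih' := ih (by omega)
    set C : ℝ := 16 ^ U.card with hC
    have hC1 : 1 ≤ C := one_le_pow₀ (by norm_num)
    have hCn : 16 * C ≤ 16 ^ n := by
      rw [hC, ← pow_succ']
      exact pow_le_pow_right₀ (by norm_num) hc
    have hCe : ε * (16 * C) ≤ 1 / 16 := by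
      rw [pow_succ] at hs
      have := mul_le_mul_of_nonneg_left hCn hε
      nlinarith
    have h2 : ε ≤ 1 / 2 := by nlinarith
    have hstep : ∀ g : X, P U g = g → ‖P {k} g - P U (P {k} g)‖ ≤ C * (4 * ε * ‖g - P {k} g‖) :=
      fun g hg => hP.step hε h2 hk ih' hg
    -- the sequence
    set F : X → X := fun g => P U (P {k} g) with hF
    have hF1 : ∀ g, P U (F g) = F g := fun g => hP.nest_apply subset_rfl _
    have hF2 : ∀ g : X, P U g = g → ‖F g - P {k} (F g)‖ ≤ ‖g - P {k} g‖ / 2 := by
      intro g hg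
      have e1 : F g - P {k} (F g) = P {k} (P {k} g - F g) - (P {k} g - F g) := by
        rw [map_sub, hP.nest_apply subset_rfl]
        abel
      rw [e1]
      refine (norm_sub_le _ _).trans ?_
      have e2 := hP.norm_apply {k} (P {k} g - F g)
      have e3 := hstep g hg
      have e4 : C * (4 * ε * ‖g - P {k} g‖) ≤ 1 / 64 * ‖g - P {k} g‖ := by
        have : C * (4 * ε) ≤ 1 / 64 := by nlinarith
        calc C * (4 * ε * ‖g - P {k} g‖) = C * (4 * ε) * ‖g - P {k} g‖ := by ring
          _ ≤ _ := mul_le_mul_of_nonneg_right this (norm_nonneg _)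
      have e5 := norm_nonneg (g - P {k} g)
      have e6 : ‖P {k} g - F g‖ ≤ 1 / 64 * ‖g - P {k} g‖ := e3.trans e4
      linarith
    have hF3 : ∀ g : X, P U g = g → ‖g - F g‖ ≤ 2 * ‖g - P {k} g‖ := by
      intro g hg
      have e3 := hstep g hg
      have e4 : C * (4 * ε * ‖g - P {k} g‖) ≤ 1 / 64 * ‖g - P {k} g‖ := by
        have : C * (4 * ε) ≤ 1 / 64 := by nlinarith
        calc C * (4 * ε * ‖g - P {k} g‖) = C * (4 * ε) * ‖g - P {k} g‖ := by ring
          _ ≤ _ := mul_le_mul_of_nonneg_right this (norm_nonneg _)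
      have e5 := norm_nonneg (g - P {k} g)
      have e6 : ‖g - F g‖ ≤ ‖g - P {k} g‖ + ‖P {k} g - F g‖ := norm_sub_le_norm_sub_add_norm_sub _ _ _
      have e7 : ‖P {k} g - F g‖ ≤ 1 / 64 * ‖g - P {k} g‖ := e3.trans e4
      linarith
    have hmain : ∀ g : X, P U g = g → ‖g - P (insert k U) g‖ ≤ 4 * ‖g - P {k} g‖ := by
      intro g hg
      have s1 : ∀ m : ℕ, P U (F^[m] g) = F^[m] g := by
        intro m
        cases m with
        | zero => exact hg
        | succ m => rw [Function.iterate_succ_apply']; exact hF1 _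
      have s2 : ∀ m : ℕ, ‖F^[m] g - P {k} (F^[m] g)‖ ≤ ‖g - P {k} g‖ / 2 ^ m := by
        intro m
        induction m with
        | zero => simp
        | succ m ih2 =>
          rw [Function.iterate_succ_apply']
          refine (hF2 _ (s1 m)).trans ?_
          rw [pow_succ, ← div_div]
          exact div_le_div_of_nonneg_right ih2 (by norm_num)
      have s3 : ∀ m : ℕ, dist (F^[m] g) (F^[m + 1] g) ≤ 4 * ‖g - P {k} g‖ / 2 / 2 ^ m := by
        intro m
        rw [dist_eq_norm, Function.iterate_succ_apply']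
        refine (hF3 _ (s1 m)).trans ?_
        calc 2 * ‖F^[m] g - P {k} (F^[m] g)‖ ≤ 2 * (‖g - P {k} g‖ / 2 ^ m) :=
              mul_le_mul_of_nonneg_left (s2 m) (by norm_num)
          _ = 4 * ‖g - P {k} g‖ / 2 / 2 ^ m := by ring
      have s4 := cauchySeq_of_le_geometric_two s3
      obtain ⟨a, ha⟩ := cauchySeq_tendsto_of_complete s4
      have s5 := dist_le_of_le_geometric_two_of_tendsto₀ s3 ha
      have s6 : P U a = a := by
        have := ((P U).continuous.tendsto a).comp ha
        refine tendsto_nhds_unique this ?_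
        refine ha.congr fun m => ?_
        exact (s1 m).symm
      have s7 : P {k} a = a := by
        have t1 : Filter.Tendsto (fun m : ℕ => F^[m] g - P {k} (F^[m] g)) Filter.atTop
            (nhds (a - P {k} a)) := ha.sub (((P {k}).continuous.tendsto a).comp ha)
        have t2 : Filter.Tendsto (fun m : ℕ => F^[m] g - P {k} (F^[m] g)) Filter.atTop (nhds 0) := by
          rw [tendsto_zero_iff_norm_tendsto_zero]
          refine squeeze_zero (fun _ => norm_nonneg _) s2 ?_
          have t3 : Filter.Tendsto (fun m : ℕ => ‖g - P {k} g‖ * (1 / 2 : ℝ) ^ m) Filter.atTop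
              (nhds (‖g - P {k} g‖ * 0)) :=
            (tendsto_pow_atTop_nhds_zero_of_lt_one (by norm_num) (by norm_num)).const_mul _
          rw [mul_zero] at t3
          refine t3.congr fun m => ?_
          rw [one_div, inv_pow, div_eq_mul_inv]
        have := tendsto_nhds_unique t1 t2
        exact (sub_eq_zero.1 this).symm
      have s8 : P (insert k U) a = a := by
        apply hP.fix
        intro v hv
        rcases Finset.mem_insert.1 hv with rfl | hv
        · exact s7
        · rw [← s6]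
          exact hP.nest_apply (Finset.singleton_subset_iff.2 hv) a
      have s9 : ∀ m : ℕ, P (insert k U) (F^[m] g) = P (insert k U) g := by
        intro m
        induction m with
        | zero => rfl
        | succ m ih2 =>
          rw [Function.iterate_succ_apply', ← ih2]
          show P (insert k U) (P U (P {k} (F^[m] g))) = _
          rw [hP.nest'_apply (Finset.subset_insert k U), hP.nest'_apply (by simp)]
      have s10 : P (insert k U) a = P (insert k U) g := by
        have t1 := ((P (insert k U)).continuous.tendsto a).comp ha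
        refine tendsto_nhds_unique t1 ?_
        refine tendsto_const_nhds.congr fun m => ?_
        exact (s9 m).symm
      rw [← s10, s8, ← dist_eq_norm]
      exact s5
    have h5 : ∀ v ∈ U, ‖x - P {v} x‖ ≤ δ := fun v hv => hx v (Finset.mem_insert_of_mem hv)
    have h6 := ih' x δ hδ h5
    have h7 := hx k (Finset.mem_insert_self _ _)
    have h8 := hmain (P U x) (hP.nest_apply subset_rfl x)
    have h9 : ‖P U x - P {k} (P U x)‖ ≤ (2 * C + 1) * δ := by
      have e1 : P U x - P {k} (P U x) = (x - P {k} x) - ((x - P U x) - P {k} (x - P U x)) := by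
        rw [map_sub]
        abel
      rw [e1]
      refine (norm_sub_le _ _).trans ?_
      have e2 := norm_sub_le (x - P U x) (P {k} (x - P U x))
      have e3 := hP.norm_apply {k} (x - P U x)
      nlinarith
    have h10 : P (insert k U) (P U x) = P (insert k U) x := hP.nest'_apply (Finset.subset_insert k U) x
    rw [h10] at h8
    have h11 : ‖x - P (insert k U) x‖ ≤ ‖x - P U x‖ + ‖P U x - P (insert k U) x‖ :=
      norm_sub_le_norm_sub_add_norm_sub _ _ _
    rw [Finset.card_insert_of_notMem hk, pow_succ]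
    nlinarith

/-- the product of two of the projections -/
theorem Pairs.small [CompleteSpace X] (hP : Pairs Sph P ε) (hε : 0 ≤ ε)
    (hs : ε * 16 ^ (Fintype.card S + 1) ≤ 1) (v : S) (T : Finset S) :
    ‖P {v} * P T - P (insert v T)‖ ≤ 2 * 16 ^ Fintype.card S * ε := by
  apply ContinuousLinearMap.opNorm_le_bound _ (by positivity)
  intro x
  show ‖P {v} (P T x) - P (insert v T) x‖ ≤ _
  have h0 : P (insert v T) (P {v} (P T x)) = P (insert v T) x := by
    rw [hP.nest'_apply (by simp), hP.nest'_apply (Finset.subset_insert v T)]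
  have hx := hP.norm_apply T x
  have h1 := hP.near hε (Fintype.card S) hs (insert v T) (Finset.card_le_univ _) (P {v} (P T x))
    (2 * ε * ‖x‖) (by positivity) (by
      intro t ht
      by_cases htv : t = v
      · rw [htv, hP.nest_apply subset_rfl, sub_self, norm_zero]
        positivity
      have htT : t ∈ T := by
        rcases Finset.mem_insert.1 ht with h | h
        · exact absurd h htv
        · exact h
      have e0 : P {t} (P T x) = P T x := hP.nest_apply (Finset.singleton_subset_iff.2 htT) x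
      have e1 : P {v} (P T x) - P {v, t} (P T x) = (P {v} * P {t} - P {v, t}) (P T x) := by
        show _ = P {v} (P {t} (P T x)) - P {v, t} (P T x)
        rw [e0]
      have e2 : ‖P {v} (P T x) - P {v, t} (P T x)‖ ≤ ε * ‖x‖ := by
        rw [e1]
        exact ((P {v} * P {t} - P {v, t}).le_of_opNorm_le (hP.pair v t (Ne.symm htv)) _).trans
          (mul_le_mul_of_nonneg_left hx hε)
      have e3 : P {v} (P T x) - P {t} (P {v} (P T x))
          = (P {v} (P T x) - P {v, t} (P T x)) - P {t} (P {v} (P T x) - P {v, t} (P T x)) := by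
        have e4 : P {t} (P {v, t} (P T x)) = P {v, t} (P T x) := hP.nest_apply (by simp) _
        rw [map_sub, e4]
        abel
      rw [e3]
      refine (norm_sub_le _ _).trans ?_
      have e5 := hP.norm_apply {t} (P {v} (P T x) - P {v, t} (P T x))
      linarith)
  rw [h0] at h1
  refine h1.trans ?_
  have h2 : (16 : ℝ) ^ (insert v T).card ≤ 16 ^ Fintype.card S :=
    pow_le_pow_right₀ (by norm_num) (Finset.card_le_univ _)
  have h3 : 0 ≤ 2 * ε * ‖x‖ := by positivity
  calc (16 : ℝ) ^ (insert v T).card * (2 * ε * ‖x‖) ≤ 16 ^ Fintype.card S * (2 * ε * ‖x‖) :=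
        mul_le_mul_of_nonneg_right h2 h3
    _ = 2 * 16 ^ Fintype.card S * ε * ‖x‖ := by ring

end Pool.Agent.H8.BD
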