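import Pool.Agent.H8.BD.Defs

/-!
# Project BD: the cubical complex
-/

set_option autoImplicit false
set_option linter.unusedSectionVars false

open Finset

namespace Pool.Agent.H8.BD

open Pool.Agent.H78.RA

variable {S : Type} [Fintype S] [DecidableEq S]

theorem sg_mul_sg (ν : S → ℕ) (D : Finset S) (v : S) : sg ν D v * sg ν D v = 1 := by
  unfold sg
  rw [← mul_pow]
  simp

theorem sg_swap (ν : S → ℕ) (hν : Function.Injective ν) (D : Finset S) (u v : S) (hu : u ∉ D)
    (hv : v ∉ D) (huv : u ≠ v) :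
    sg ν D v * sg ν (insert v D) u + sg ν D u * sg ν (insert u D) v = 0 := by
  rw [sg_insert ν D u v hv, sg_insert ν D v u hu]
  have hne : ν v ≠ ν u := fun h => huv (hν h).symm
  rcases lt_or_gt_of_ne hne with h | h
  · rw [if_pos h, if_neg (not_lt.2 h.le)]
    ring
  · rw [if_neg (not_lt.2 h.le), if_pos h]
    ring

section

variable {E : Type*} [AddCommGroup E]

theorem cbd_of_subset (ν : S → ℕ) (P : Finset S → E → E) (f : Finset S → Finset S → E) {A T : Finset S}
    (h : A ⊆ T) : cbd ν P f A T = ∑ v ∈ Tᶜ, sg ν (T \ A) v • f A (insert v T)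
      - ∑ v ∈ A, sg ν (T \ A) v • P A (f (A.erase v) T) := if_pos h

theorem cbd_of_not (ν : S → ℕ) (P : Finset S → E → E) (f : Finset S → Finset S → E) {A T : Finset S}
    (h : ¬ A ⊆ T) : cbd ν P f A T = 0 := if_neg h

theorem cbd_add (ν : S → ℕ) (P : Finset S → E →+ E) (f g : Finset S → Finset S → E) :
    cbd ν (fun A => P A) (f + g) = cbd ν (fun A => P A) f + cbd ν (fun A => P A) g := by
  funext A T
  rw [Pi.add_apply, Pi.add_apply]
  by_cases h : A ⊆ T
  · rw [cbd_of_subset ν _ _ h, cbd_of_subset ν _ _ h, cbd_of_subset ν _ _ h]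
    simp only [Pi.add_apply, smul_add, map_add, Finset.sum_add_distrib]
    abel
  · rw [cbd_of_not ν _ _ h, cbd_of_not ν _ _ h, cbd_of_not ν _ _ h, add_zero]

theorem cbd_zero (ν : S → ℕ) (P : Finset S → E →+ E) :
    cbd ν (fun A => P A) (0 : Finset S → Finset S → E) = 0 := by
  funext A T
  by_cases h : A ⊆ T
  · rw [cbd_of_subset ν _ _ h]
    simp
  · rw [cbd_of_not ν _ _ h]
    rfl

theorem cbd_neg (ν : S → ℕ) (P : Finset S → E →+ E) (f : Finset S → Finset S → E) :
    cbd ν (fun A => P A) (-f) = -cbd ν (fun A => P A) f := by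
  have h := cbd_add ν P f (-f)
  rw [add_neg_cancel, cbd_zero] at h
  exact (neg_eq_of_add_eq_zero_right h.symm).symm

theorem cbd_sub (ν : S → ℕ) (P : Finset S → E →+ E) (f g : Finset S → Finset S → E) :
    cbd ν (fun A => P A) (f - g) = cbd ν (fun A => P A) f - cbd ν (fun A => P A) g := by
  rw [sub_eq_add_neg, cbd_add, cbd_neg, sub_eq_add_neg]

theorem insert_sdiff {v : S} {A T : Finset S} (hv : v ∉ A) : insert v T \ A = insert v (T \ A) :=
  Finset.insert_sdiff_of_notMem T hv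

theorem sdiff_erase' {v : S} {A T : Finset S} (hA : A ⊆ T) (hv : v ∈ A) :
    T \ A.erase v = insert v (T \ A) := Finset.sdiff_erase (hA hv)

theorem cbd_cbd (ν : S → ℕ) (hν : Function.Injective ν) (P : Finset S → E →+ E)
    (hP : ∀ A, ∀ v ∈ A, ∀ x, P A (P (A.erase v) x) = P A x) (f : Finset S → Finset S → E) :
    cbd ν (fun A => P A) (cbd ν (fun A => P A) f) = 0 := by
  funext A T
  by_cases h : A ⊆ T
  swap
  · rw [cbd_of_not ν _ _ h]
    rfl
  rw [cbd_of_subset ν _ _ h]
  set D := T \ A with hD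
  have hAD : ∀ v ∈ A, v ∉ D := fun v hv h0 => (Finset.mem_sdiff.1 h0).2 hv
  have hTD : ∀ v ∈ Tᶜ, v ∉ D := fun v hv h0 => Finset.mem_compl.1 hv (Finset.mem_sdiff.1 h0).1
  have e1 : ∀ v ∈ Tᶜ, sg ν D v • cbd ν (fun A => P A) f A (insert v T)
      = (∑ u ∈ (insert v T)ᶜ, (sg ν D v * sg ν (insert v D) u) • f A (insert u (insert v T)))
        - ∑ u ∈ A, (sg ν D v * sg ν (insert v D) u) • P A (f (A.erase u) (insert v T)) := by
    intro v hv
    have hvA : v ∉ A := fun h0 => Finset.mem_compl.1 hv (h h0)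
    rw [cbd_of_subset ν _ _ (h.trans (Finset.subset_insert v T)), insert_sdiff hvA, smul_sub,
      Finset.smul_sum, Finset.smul_sum]
    simp only [mul_smul, hD]
  have e2 : ∀ v ∈ A, sg ν D v • P A (cbd ν (fun A => P A) f (A.erase v) T)
      = (∑ u ∈ Tᶜ, (sg ν D v * sg ν (insert v D) u) • P A (f (A.erase v) (insert u T)))
        - ∑ u ∈ A.erase v, (sg ν D v * sg ν (insert v D) u) • P A (f ((A.erase v).erase u) T) := by
    intro v hv
    rw [cbd_of_subset ν _ _ ((Finset.erase_subset v A).trans h), sdiff_erase' h hv, map_sub, smul_sub,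
      map_sum, map_sum, Finset.smul_sum, Finset.smul_sum]
    simp only [map_zsmul, hP A v hv, mul_smul, hD]
  rw [Finset.sum_congr rfl e1, Finset.sum_congr rfl e2, Finset.sum_sub_distrib, Finset.sum_sub_distrib]
  have z1 : ∑ v ∈ Tᶜ, ∑ u ∈ (insert v T)ᶜ, (sg ν D v * sg ν (insert v D) u) • f A (insert u (insert v T))
      = 0 := by
    rw [Finset.sum_sigma']
    apply Finset.sum_involution (fun a _ => (⟨a.2, a.1⟩ : (_ : S) × S))
    · rintro ⟨v, u⟩ ha
      simp only [Finset.mem_sigma, Finset.mem_compl, Finset.mem_insert, not_or] at ha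
      obtain ⟨hv, huv, hu⟩ := ha
      show (sg ν D v * sg ν (insert v D) u) • f A (insert u (insert v T))
        + (sg ν D u * sg ν (insert u D) v) • f A (insert v (insert u T)) = 0
      rw [Finset.insert_comm v u T, ← add_smul, sg_swap ν hν D u v (hTD u (Finset.mem_compl.2 hu))
        (hTD v (Finset.mem_compl.2 hv)) huv, zero_smul]
    · rintro ⟨v, u⟩ ha _ hc
      simp only [Finset.mem_sigma, Finset.mem_compl, Finset.mem_insert, not_or] at ha
      have h2 : u = v := congrArg Sigma.fst hc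
      exact ha.2.1 h2
    · rintro ⟨v, u⟩ ha
      simp only [Finset.mem_sigma, Finset.mem_compl, Finset.mem_insert, not_or] at ha ⊢
      exact ⟨ha.2.2, fun h => ha.2.1 h.symm, ha.1⟩
    · rintro ⟨v, u⟩ _
      rfl
  have z2 : ∑ v ∈ A, ∑ u ∈ A.erase v, (sg ν D v * sg ν (insert v D) u) • P A (f ((A.erase v).erase u) T)
      = 0 := by
    rw [Finset.sum_sigma']
    apply Finset.sum_involution (fun a _ => (⟨a.2, a.1⟩ : (_ : S) × S))
    · rintro ⟨v, u⟩ ha
      simp only [Finset.mem_sigma, Finset.mem_erase] at ha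
      obtain ⟨hv, huv, hu⟩ := ha
      show (sg ν D v * sg ν (insert v D) u) • P A (f ((A.erase v).erase u) T)
        + (sg ν D u * sg ν (insert u D) v) • P A (f ((A.erase u).erase v) T) = 0
      rw [Finset.erase_right_comm, ← add_smul, sg_swap ν hν D u v (hAD u hu) (hAD v hv) huv, zero_smul]
    · rintro ⟨v, u⟩ ha _ hc
      simp only [Finset.mem_sigma, Finset.mem_erase] at ha
      have h2 : u = v := congrArg Sigma.fst hc
      exact ha.2.1 h2
    · rintro ⟨v, u⟩ ha
      simp only [Finset.mem_sigma, Finset.mem_erase] at ha ⊢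
      exact ⟨ha.2.2, fun h => ha.2.1 h.symm, ha.1⟩
    · rintro ⟨v, u⟩ _
      rfl
  have z3 : ∑ v ∈ Tᶜ, ∑ u ∈ A, (sg ν D v * sg ν (insert v D) u) • P A (f (A.erase u) (insert v T))
      + ∑ v ∈ A, ∑ u ∈ Tᶜ, (sg ν D v * sg ν (insert v D) u) • P A (f (A.erase v) (insert u T)) = 0 := by
    rw [Finset.sum_comm, ← Finset.sum_add_distrib]
    apply Finset.sum_eq_zero
    intro v hv
    rw [← Finset.sum_add_distrib]
    apply Finset.sum_eq_zero
    intro u hu
    have huv : u ≠ v := by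
      rintro rfl
      exact Finset.mem_compl.1 hu (h hv)
    rw [← add_smul, sg_swap ν hν D v u (hAD v hv) (hTD u hu) huv.symm, zero_smul]
  rw [z1, z2, zero_sub, sub_zero]
  rw [show (0 : Finset S → Finset S → E) A T = 0 from rfl, ← neg_eq_zero, neg_sub, sub_neg_eq_add, add_comm]
  exact z3

theorem cbd_supp (ν : S → ℕ) {Sph : Finset S → Prop} (hS : ∀ T U, T ⊆ U → Sph U → Sph T)
    (P : Finset S → E →+ E) (i : ℕ) (f : Finset S → Finset S → E) (hf : Ch Sph (i + 1) f) :
    Ch Sph i (cbd ν (fun A => P A) f) := by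
  intro A T h0
  have h : A ⊆ T := by
    by_contra hn
    exact h0 (cbd_of_not ν _ _ hn)
  refine ⟨h, ?_⟩
  rw [cbd_of_subset ν _ _ h] at h0
  have h1 : (∑ v ∈ Tᶜ, sg ν (T \ A) v • f A (insert v T)) ≠ 0 ∨
      (∑ v ∈ A, sg ν (T \ A) v • P A (f (A.erase v) T)) ≠ 0 := by
    by_contra hc
    push Not at hc
    rw [hc.1, hc.2, sub_zero] at h0
    exact h0 rfl
  rcases h1 with h1 | h1
  · obtain ⟨v, hv, hne⟩ := Finset.exists_ne_zero_of_sum_ne_zero h1
    have h2 : f A (insert v T) ≠ 0 := fun h3 => hne (by rw [h3, smul_zero])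
    obtain ⟨_, h4, h5⟩ := hf _ _ h2
    have hvT := Finset.mem_compl.1 hv
    rw [insert_sdiff fun h0 => hvT (h h0), Finset.card_insert_of_notMem
      fun h0 => hvT (Finset.mem_sdiff.1 h0).1] at h5
    exact ⟨hS _ _ (Finset.subset_insert v T) h4, by omega⟩
  · obtain ⟨v, hv, hne⟩ := Finset.exists_ne_zero_of_sum_ne_zero h1
    have h2 : f (A.erase v) T ≠ 0 := fun h3 => hne (by rw [h3, map_zero, smul_zero])
    obtain ⟨_, h4, h5⟩ := hf _ _ h2
    rw [sdiff_erase' h hv, Finset.card_insert_of_notMem fun h0 => (Finset.mem_sdiff.1 h0).2 hv] at h5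
    exact ⟨h4, by omega⟩

end

end Pool.Agent.H8.BD
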