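import Pool.Agent.H8.BD.Sml
import Pool.Agent.H8.BD.Ang
import Mathlib.Analysis.Normed.Ring.Units

/-!
# Project BD: exactness of the cubical complex for almost commuting projections
-/

set_option autoImplicit false
set_option linter.unusedSectionVars false

open Finset

namespace Pool.Agent.H8.BD

open Pool.Agent.H78.RA

variable {S : Type} [Fintype S] [DecidableEq S]

section

variable {X : Type} [NormedAddCommGroup X] [NormedSpace ℂ X] {Sph : Finset S → Prop}
  {P : Finset S → X →L[ℂ] X} {ε : ℝ}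

theorem Pairs.union [CompleteSpace X] (hP : Pairs Sph P ε) (hε : 0 ≤ ε)
    (hs : ε * 16 ^ (Fintype.card S + 1) ≤ 1) (T U : Finset S) :
    ‖P T * P U - P (T ∪ U)‖ ≤ (2 * T.card) * (2 * 16 ^ Fintype.card S * ε) := by
  induction T using Finset.induction_on with
  | empty =>
    rw [hP.one, one_mul, Finset.empty_union, sub_self, norm_zero]
    simp
  | insert v T hv ih =>
    have h1 := hP.small hε hs v T
    have h2 := hP.small hε hs v (T ∪ U)
    rw [Finset.insert_union, Finset.card_insert_of_notMem hv]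
    have e1 : P (insert v T) * P U - P (insert v (T ∪ U))
        = -((P {v} * P T - P (insert v T)) * P U) + P {v} * (P T * P U - P (T ∪ U))
          + (P {v} * P (T ∪ U) - P (insert v (T ∪ U))) := by
      rw [sub_mul, mul_sub, mul_assoc]
      abel
    rw [e1]
    have n1 : ‖-((P {v} * P T - P (insert v T)) * P U)‖ ≤ 2 * 16 ^ Fintype.card S * ε := by
      rw [norm_neg]
      refine (norm_mul_le _ _).trans ?_
      have := mul_le_mul h1 (hP.norm U) (norm_nonneg _) ((norm_nonneg _).trans h1)
      rwa [mul_one] at this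
    have n2 : ‖P {v} * (P T * P U - P (T ∪ U))‖ ≤ (2 * T.card) * (2 * 16 ^ Fintype.card S * ε) := by
      refine (norm_mul_le _ _).trans ?_
      have := mul_le_mul (hP.norm {v}) ih (norm_nonneg _) zero_le_one
      rwa [one_mul] at this
    refine (norm_add_le _ _).trans ((add_le_add_left (norm_add_le _ _) _).trans ?_)
    push_cast
    nlinarith

theorem Pairs.comm [CompleteSpace X] (hP : Pairs Sph P ε) (hε : 0 ≤ ε)
    (hs : ε * 16 ^ (Fintype.card S + 1) ≤ 1) (T U : Finset S) :
    ‖P T * P U - P U * P T‖ ≤ (4 * Fintype.card S) * (2 * 16 ^ Fintype.card S * ε) := by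
  have h1 := hP.union hε hs T U
  have h2 := hP.union hε hs U T
  rw [Finset.union_comm U T] at h2
  have e1 : P T * P U - P U * P T = (P T * P U - P (T ∪ U)) - (P U * P T - P (T ∪ U)) := by abel
  rw [e1]
  refine (norm_sub_le _ _).trans ((add_le_add h1 h2).trans ?_)
  have c1 : (T.card : ℝ) ≤ Fintype.card S := by exact_mod_cast Finset.card_le_univ T
  have c2 : (U.card : ℝ) ≤ Fintype.card S := by exact_mod_cast Finset.card_le_univ U
  have c3 : 0 ≤ 2 * 16 ^ Fintype.card S * ε := by positivity
  nlinarith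

end

/-- evaluation of a family -/
def ev {Sph : Finset S → Prop} (D : Dat Sph) : BddS Sph →+* (D.E →L[ℂ] D.E) :=
  (Pi.evalRingHom (fun D : Dat Sph => D.E →L[ℂ] D.E) D).comp (BddS Sph).val.toRingHom

theorem exists_exact (Sph : Finset S → Prop) (hS : ∀ T U, T ⊆ U → Sph U → Sph T) (ν : S → ℕ)
    (hν : Function.Injective ν) (i : ℕ)
    (hex : ∀ A, Sph A → Ex ℂ ν (fun σ => Sph σ ∧ σ.card = i ∧ Disjoint σ A)
      (fun σ => Sph σ ∧ σ.card = i + 1 ∧ Disjoint σ A)) :
    ∃ ε > 0, ∀ {X : Type} [NormedAddCommGroup X] [NormedSpace ℂ X] [CompleteSpace X]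
      (P : Finset S → X →L[ℂ] X), Pairs Sph P ε → ∀ f : Finset S → Finset S → X, Ch Sph i f →
      (∀ A T, P A (f A T) = f A T) → cbd ν (fun A => P A) f = 0 →
      ∃ g, Ch Sph (i + 1) g ∧ (∀ A T, P A (g A T) = g A T) ∧ cbd ν (fun A => P A) g = f := by
  classical
  -- the matrices
  have h1 : ∀ A : Finset S, ∃ η κ : Matrix (Finset S × Finset S) (Finset S × Finset S) ℂ, Sph A →
      (∀ L K, η L K ≠ 0 → IC Sph (i + 1) L ∧ L.1 ⊆ A) ∧ (∀ J M, κ J M ≠ 0 → IC Sph i J ∧ J.1 ⊆ A) ∧
      ∀ J K, IC Sph i K → K.1 ⊆ A →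
        (dm ν (ch A) * η + κ * dm ν (ch A)) J K = if J = K then 1 else 0 := by
    intro A
    by_cases hA : Sph A
    · obtain ⟨η, κ, h⟩ := contr_A ν hν hS (hex A hA)
      exact ⟨η, κ, fun _ => h⟩
    · exact ⟨0, 0, fun h => absurd h hA⟩
  choose η κ hηκ using h1
  obtain ⟨e, he⟩ := key_small Sph ν i
  have h2 : ∀ J K : Finset S × Finset S, ∃ C : ℝ, IC Sph i K → ∀ D : Dat Sph,
      ‖((∑ L, dm ν (pb Sph) J L *
          (pb Sph L.1 * (∑ A : Finset S, if Sph A then η A L K • e A else 0))) * pb Sph K.1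
      + (∑ M, (∑ A : Finset S, if Sph A then κ A J M • e A else 0) * dm ν (pb Sph) M K) * pb Sph K.1
        : BddS Sph).1 D - (if J = K then pb Sph K.1 else 0 : BddS Sph).1 D‖ ≤ C * D.ε := by
    intro J K
    by_cases h : IC Sph i K
    · obtain ⟨C, hC⟩ := he η κ (fun A hA L K h0 => ((hηκ A hA).1 L K h0).2)
        (fun A hA J K a b => (hηκ A hA).2.2 J K a b) J K h
      exact ⟨C, fun _ => hC⟩
    · exact ⟨0, fun a => absurd a h⟩
  choose C hC using h2
  set c : ℝ := ∑ J, ∑ K, |C J K| with hc
  have hc0 : 0 ≤ c := Finset.sum_nonneg fun _ _ => Finset.sum_nonneg fun _ _ => abs_nonneg _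
  set K₁ : ℝ := (4 * Fintype.card S + 1) * (2 * 16 ^ Fintype.card S) with hK₁
  have hK₁0 : 0 < K₁ := by positivity
  set ε : ℝ := min (1 / 16 ^ (Fintype.card S + 1)) (1 / (2 * (c + 1)) / K₁) with hε
  have hε0 : 0 < ε := lt_min (by positivity) (by positivity)
  have hε1 : ε * 16 ^ (Fintype.card S + 1) ≤ 1 := by
    have : ε ≤ 1 / 16 ^ (Fintype.card S + 1) := min_le_left _ _
    calc ε * 16 ^ (Fintype.card S + 1) ≤ 1 / 16 ^ (Fintype.card S + 1) * 16 ^ (Fintype.card S + 1) :=
          mul_le_mul_of_nonneg_right this (by positivity)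
      _ = 1 := by field_simp
  have hε2 : K₁ * ε ≤ 1 / (2 * (c + 1)) := by
    have : ε ≤ 1 / (2 * (c + 1)) / K₁ := min_le_right _ _
    calc K₁ * ε ≤ K₁ * (1 / (2 * (c + 1)) / K₁) := mul_le_mul_of_nonneg_left this hK₁0.le
      _ = _ := by field_simp
  refine ⟨ε, hε0, ?_⟩
  intro X _ _ _ P hP f hf1 hf2 hf3
  set D : Dat Sph := ⟨X, P, 1 / (2 * (c + 1)), hP.one, hP.norm, hP.zero, by
    intro v T
    refine (hP.small hε0.le hε1 v T).trans (le_trans ?_ hε2)
    rw [hK₁]
    have : (0 : ℝ) ≤ 4 * Fintype.card S * (2 * 16 ^ Fintype.card S) * ε := by positivity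
    nlinarith, by
    intro T U
    refine (hP.comm hε0.le hε1 T U).trans (le_trans ?_ hε2)
    rw [hK₁]
    have : (0 : ℝ) ≤ (2 * 16 ^ Fintype.card S) * ε := by positivity
    nlinarith⟩ with hD
  -- the operators
  let Hh : Finset S × Finset S → Finset S × Finset S → (X →L[ℂ] X) := fun L K =>
    (∑ A : Finset S, if Sph A then η A L K • e A else 0 : BddS Sph).1 D
  let Kk : Finset S × Finset S → Finset S × Finset S → (X →L[ℂ] X) := fun J M =>
    (∑ A : Finset S, if Sph A then κ A J M • e A else 0 : BddS Sph).1 D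
  let hop : (Finset S × Finset S → X) →L[ℂ] (Finset S × Finset S → X) := ContinuousLinearMap.pi fun L =>
    (P L.1 : X →L[ℂ] X) ∘L ∑ K, (Hh L K) ∘L ContinuousLinearMap.proj K
  let bdC : (Finset S × Finset S → X) →L[ℂ] (Finset S × Finset S → X) := ContinuousLinearMap.pi fun J =>
    ∑ K, dm ν P J K ∘L ContinuousLinearMap.proj K
  let Pa : Finset S → X →+ X := fun A => (P A : X →ₗ[ℂ] X).toAddMonoidHom
  have hop_apply : ∀ (z : Finset S × Finset S → X) (L : Finset S × Finset S),
      hop z L = P L.1 (∑ K, Hh L K (z K)) := by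
    intro z L
    show (P L.1) ((∑ K, (Hh L K) ∘L ContinuousLinearMap.proj K) z) = _
    rw [_root_.sum_apply]
    rfl
  have bdC_apply' : ∀ (z : Finset S × Finset S → X) (J : Finset S × Finset S),
      bdC z J = ∑ K, dm ν P J K (z K) := by
    intro z J
    show (∑ K, dm ν P J K ∘L ContinuousLinearMap.proj K) z = _
    rw [_root_.sum_apply]
    rfl
  have dm_z : ∀ (J K : Finset S × Finset S) (x : X),
      dm ν P J K x = ca ν J K • x - cb ν J K • P J.1 x := by
    intro J K x
    rw [dm_apply]
    rfl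
  have bdC_apply : ∀ (z : Finset S × Finset S → X) (J : Finset S × Finset S),
      bdC z J = cbd ν (fun A => Pa A) (fun A T => z (A, T)) J.1 J.2 := by
    intro z J
    rw [bdC_apply', cbd_eq]
    exact Finset.sum_congr rfl fun K _ => dm_z J K (z K)
  have hH0 : ∀ L K : Finset S × Finset S, ¬ IC Sph (i + 1) L → Hh L K = 0 := by
    intro L K hn
    have h3 : (∑ A : Finset S, if Sph A then η A L K • e A else 0 : BddS Sph) = 0 := by
      apply Finset.sum_eq_zero
      intro A _
      split_ifs with hA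
      · have h4 : η A L K = 0 := by
          by_contra h0
          exact hn ((hηκ A hA).1 L K h0).1
        rw [h4, zero_smul]
      · rfl
    show (∑ A : Finset S, if Sph A then η A L K • e A else 0 : BddS Sph).1 D = 0
    rw [h3]
    rfl
  have hop_supp : ∀ (z : Finset S × Finset S → X) (L : Finset S × Finset S), hop z L ≠ 0 →
      IC Sph (i + 1) L := by
    intro z L h0
    by_contra hn
    apply h0
    rw [hop_apply, Finset.sum_eq_zero, map_zero]
    intro K _
    rw [hH0 L K hn]
    rfl
  have hPP : ∀ (A : Finset S) (x : X), P A (P A x) = P A x := fun A x => hP.nest_apply subset_rfl x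
  have hop_P : ∀ (z : Finset S × Finset S → X) (L : Finset S × Finset S), P L.1 (hop z L) = hop z L := by
    intro z L
    rw [hop_apply, hPP]
  -- the space of cycles
  let Z : Submodule ℂ (Finset S × Finset S → X) :=
    { carrier := {z | (∀ K, ¬ IC Sph i K → z K = 0) ∧ (∀ K, P K.1 (z K) = z K) ∧ bdC z = 0}
      add_mem' := by
        rintro x y ⟨hx1, hx2, hx3⟩ ⟨hy1, hy2, hy3⟩
        refine ⟨fun K hK => ?_, fun K => ?_, ?_⟩
        · rw [Pi.add_apply, hx1 K hK, hy1 K hK, add_zero]
        · rw [Pi.add_apply, map_add, hx2 K, hy2 K]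
        · rw [map_add, hx3, hy3, add_zero]
      zero_mem' := ⟨fun _ _ => rfl, fun K => by rw [Pi.zero_apply, map_zero], map_zero _⟩
      smul_mem' := by
        rintro a x ⟨hx1, hx2, hx3⟩
        refine ⟨fun K hK => ?_, fun K => ?_, ?_⟩
        · rw [Pi.smul_apply, hx1 K hK, smul_zero]
        · rw [Pi.smul_apply, map_smul, hx2 K]
        · rw [map_smul, hx3, smul_zero] }
  have hZc : IsClosed (Z : Set (Finset S × Finset S → X)) := by
    have e1 : (Z : Set (Finset S × Finset S → X)) =
        (⋂ K : {K : Finset S × Finset S // ¬ IC Sph i K}, {z | z K.1 = 0}) ∩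
        ((⋂ K : Finset S × Finset S, {z | P K.1 (z K) = z K}) ∩ {z | bdC z = 0}) := by
      ext z
      constructor
      · rintro ⟨a, b, d⟩
        exact ⟨Set.mem_iInter.2 fun K => a K.1 K.2, Set.mem_iInter.2 fun K => b K, d⟩
      · rintro ⟨a, b, d⟩
        exact ⟨fun K hK => Set.mem_iInter.1 a ⟨K, hK⟩, fun K => Set.mem_iInter.1 b K, d⟩
    rw [e1]
    refine IsClosed.inter (isClosed_iInter fun K => ?_) (IsClosed.inter
      (isClosed_iInter fun K => ?_) ?_)
    · exact isClosed_eq (continuous_apply K.1) continuous_const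
    · exact isClosed_eq ((P K.1).continuous.comp (continuous_apply K)) (continuous_apply K)
    · exact isClosed_eq bdC.continuous continuous_const
  have : CompleteSpace Z := hZc.completeSpace_coe
  have hbdZ : ∀ z ∈ Z, bdC (hop z) ∈ Z := by
    intro z hz
    refine ⟨fun J hJ => ?_, fun J => ?_, ?_⟩
    · by_contra h0
      apply hJ
      rw [bdC_apply] at h0
      exact cbd_supp ν hS Pa i (fun A T => hop z (A, T)) (fun A T h3 => hop_supp z (A, T) h3) _ _ h0
    · rw [bdC_apply]
      by_cases hJ : J.1 ⊆ J.2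
      · rw [cbd_of_subset ν _ _ hJ, map_sub, map_sum, map_sum]
        congr 1
        · apply Finset.sum_congr rfl
          intro v _
          rw [map_zsmul]
          congr 1
          exact hop_P z (J.1, insert v J.2)
        · apply Finset.sum_congr rfl
          intro v _
          rw [map_zsmul]
          congr 1
          exact hPP J.1 _
      · rw [cbd_of_not ν _ _ hJ, map_zero]
    · funext J
      rw [bdC_apply]
      have e1 : (fun A T => bdC (hop z) (A, T)) = cbd ν (fun A => Pa A) (fun A T => hop z (A, T)) := by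
        funext A T
        exact bdC_apply (hop z) (A, T)
      rw [e1, cbd_cbd ν hν Pa (fun A v hv x => hP.nest'_apply (Finset.erase_subset v A) x)]
      rfl
  -- the estimate
  have hest : ∀ z ∈ Z, ‖z - bdC (hop z)‖ ≤ (1 / 2) * ‖z‖ := by
    intro z hz
    obtain ⟨hz1, hz2, hz3⟩ := hz
    rw [pi_norm_le_iff_of_nonneg (by positivity)]
    intro J
    let W : Finset S × Finset S → (X →L[ℂ] X) := fun K =>
      ((∑ L, dm ν (pb Sph) J L *
          (pb Sph L.1 * (∑ A : Finset S, if Sph A then η A L K • e A else 0))) * pb Sph K.1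
      + (∑ M, (∑ A : Finset S, if Sph A then κ A J M • e A else 0) * dm ν (pb Sph) M K) * pb Sph K.1
        : BddS Sph).1 D - (if J = K then pb Sph K.1 else 0 : BddS Sph).1 D
    have hev : ∀ J K, ev D (dm ν (pb Sph) J K) = dm ν P J K := by
      intro J K
      rw [dm_apply, dm_apply, map_sub, map_zsmul, map_zsmul, map_one]
      rfl
    have hW : ∀ K, W K (z K) = (∑ L, dm ν P J L (P L.1 (Hh L K (z K))))
        + (∑ M, Kk J M (dm ν P M K (z K))) - (if J = K then z K else 0) := by
      intro K
      have e0 : W K = (∑ L, ev D (dm ν (pb Sph) J L) * (ev D (pb Sph L.1) *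
          ev D (∑ A : Finset S, if Sph A then η A L K • e A else 0))) * ev D (pb Sph K.1)
        + (∑ M, ev D (∑ A : Finset S, if Sph A then κ A J M • e A else 0) *
          ev D (dm ν (pb Sph) M K)) * ev D (pb Sph K.1)
        - (if J = K then ev D (pb Sph K.1) else 0) := by
        have e00 : ∀ x y : BddS Sph, x.1 D - y.1 D = ev D x - ev D y := fun _ _ => rfl
        have e01 := e00 ((∑ L, dm ν (pb Sph) J L *
          (pb Sph L.1 * (∑ A : Finset S, if Sph A then η A L K • e A else 0))) * pb Sph K.1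
          + (∑ M, (∑ A : Finset S, if Sph A then κ A J M • e A else 0) * dm ν (pb Sph) M K)
            * pb Sph K.1) (if J = K then pb Sph K.1 else 0)
        refine e01.trans ?_
        rw [map_add, map_mul, map_mul, map_sum, map_sum, apply_ite (ev D), map_zero]
        simp only [map_mul]
      have e1 : ∀ x : X, (ev D (pb Sph K.1)) x = P K.1 x := fun x => rfl
      rw [e0, _root_.sub_apply, _root_.add_apply]
      congr 1
      · congr 1
        · show (∑ L, ev D (dm ν (pb Sph) J L) * (ev D (pb Sph L.1) *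
            ev D (∑ A : Finset S, if Sph A then η A L K • e A else 0))) (P K.1 (z K)) = _
          rw [hz2, _root_.sum_apply]
          apply Finset.sum_congr rfl
          intro L _
          rw [hev]
          rfl
        · show (∑ M, ev D (∑ A : Finset S, if Sph A then κ A J M • e A else 0) *
            ev D (dm ν (pb Sph) M K)) (P K.1 (z K)) = _
          rw [hz2, _root_.sum_apply]
          apply Finset.sum_congr rfl
          intro M _
          rw [hev]
          rfl
      · split_ifs
        · exact hz2 K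
        · rfl
    have hsum : ∑ K, W K (z K) = bdC (hop z) J - z J := by
      rw [Finset.sum_congr rfl fun K _ => hW K, Finset.sum_sub_distrib, Finset.sum_add_distrib]
      have e1 : ∑ K, (if J = K then z K else 0) = z J := by
        rw [Finset.sum_ite_eq, if_pos (Finset.mem_univ _)]
      have e2 : ∑ K, ∑ M, Kk J M (dm ν P M K (z K)) = 0 := by
        rw [Finset.sum_comm]
        apply Finset.sum_eq_zero
        intro M _
        have h6 : ∑ K, Kk J M (dm ν P M K (z K)) = Kk J M (bdC z M) := by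
          rw [bdC_apply', map_sum]
        rw [h6, hz3, Pi.zero_apply, map_zero]
      have e3 : ∑ K, ∑ L, dm ν P J L (P L.1 (Hh L K (z K))) = bdC (hop z) J := by
        rw [Finset.sum_comm, bdC_apply']
        apply Finset.sum_congr rfl
        intro L _
        rw [hop_apply, map_sum, map_sum]
      rw [e1, e2, e3, add_zero]
    have hn : ‖(z - bdC (hop z)) J‖ = ‖∑ K, W K (z K)‖ := by
      rw [hsum, Pi.sub_apply, norm_sub_rev]
    rw [hn]
    have h7 : ∀ K ∈ (univ : Finset (Finset S × Finset S)),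
        ‖W K (z K)‖ ≤ |C J K| * (1 / (2 * (c + 1))) * ‖z‖ := by
      intro K _
      by_cases h8 : IC Sph i K
      · have h9 := hC J K h8 D
        refine ((W K).le_opNorm (z K)).trans (mul_le_mul (h9.trans ?_) (norm_le_pi_norm z K)
          (norm_nonneg _) (by positivity))
        exact mul_le_mul_of_nonneg_right (le_abs_self _) (by positivity)
      · rw [hz1 K h8, map_zero, norm_zero]
        positivity
    refine (norm_sum_le _ _).trans ((Finset.sum_le_sum h7).trans ?_)
    rw [← Finset.sum_mul, ← Finset.sum_mul]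
    apply mul_le_mul_of_nonneg_right _ (norm_nonneg _)
    have h10 : ∑ K, |C J K| ≤ c :=
      Finset.single_le_sum (f := fun J => ∑ K, |C J K|)
        (fun _ _ => Finset.sum_nonneg fun _ _ => abs_nonneg _) (Finset.mem_univ J)
    calc (∑ K, |C J K|) * (1 / (2 * (c + 1))) ≤ c * (1 / (2 * (c + 1))) :=
          mul_le_mul_of_nonneg_right h10 (by positivity)
      _ ≤ 1 / 2 := by
          rw [mul_one_div, div_le_div_iff₀ (by positivity) (by norm_num)]
          linarith
  -- invertibility
  let Φ : Z →L[ℂ] Z := ((bdC ∘L hop) ∘L Z.subtypeL).codRestrict Z fun z => hbdZ z.1 z.2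
  have hΦ : ‖1 - Φ‖ < 1 := by
    refine lt_of_le_of_lt (ContinuousLinearMap.opNorm_le_bound _ (by norm_num : (0 : ℝ) ≤ 1 / 2)
      fun z => ?_) (by norm_num)
    exact hest z.1 z.2
  have hunit : IsUnit Φ := by
    have h14 := isUnit_one_sub_of_norm_lt_one (R := Z →L[ℂ] Z) (x := 1 - Φ) hΦ
    have h15 : (1 : Z →L[ℂ] Z) - (1 - Φ) = Φ := by
      apply ContinuousLinearMap.ext
      intro z
      show z - (z - Φ z) = Φ z
      abel
    have h16 := h14
    exact h15 ▸ h16
  obtain ⟨u, hu⟩ := hunit
  set f' : Finset S × Finset S → X := fun K => f K.1 K.2 with hf'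
  have hfZ : f' ∈ Z := by
    refine ⟨fun K hK => ?_, fun K => hf2 _ _, ?_⟩
    · by_contra h0
      exact hK (hf1 _ _ h0)
    · funext J
      rw [bdC_apply]
      have e1 : cbd ν (fun A => Pa A) (fun A T => f' (A, T)) = 0 := hf3
      rw [e1]
      rfl
  set w : Z := (↑u⁻¹ : Z →L[ℂ] Z) ⟨f', hfZ⟩ with hw
  refine ⟨fun A T => hop w.1 (A, T), fun A T h0 => hop_supp w.1 (A, T) h0,
    fun A T => hop_P w.1 (A, T), ?_⟩
  have h11 : Φ w = ⟨f', hfZ⟩ := by
    rw [hw, ← hu]
    have h12 : (↑u * ↑u⁻¹ : Z →L[ℂ] Z) = 1 := u.mul_inv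
    exact congrArg (fun T : Z →L[ℂ] Z => T ⟨f', hfZ⟩) h12
  have h13 := congrArg Subtype.val h11
  funext A T
  exact (bdC_apply (hop w.1) (A, T)).symm.trans (congrFun h13 (A, T))

end Pool.Agent.H8.BD
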