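import Pool.Agent.H8.BD.Scal

/-!
# Project BD: the boundary as a matrix, contractions in matrix form
-/

set_option autoImplicit false
set_option linter.unusedSectionVars false

open Finset

namespace Pool.Agent.H8.BD

open Pool.Agent.H78.RA

variable {S : Type} [Fintype S] [DecidableEq S]

/-- the coefficients of the lower faces -/
def ca (ν : S → ℕ) (J K : Finset S × Finset S) : ℤ :=
  if J.1 ⊆ J.2 then ∑ v ∈ J.2ᶜ, if K = (J.1, insert v J.2) then sg ν (J.2 \ J.1) v else 0 else 0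

/-- the coefficients of the upper faces -/
def cb (ν : S → ℕ) (J K : Finset S × Finset S) : ℤ :=
  if J.1 ⊆ J.2 then ∑ v ∈ J.1, if K = (J.1.erase v, J.2) then sg ν (J.2 \ J.1) v else 0 else 0

/-- the boundary matrix -/
def dm (ν : S → ℕ) {R : Type*} [Ring R] (p : Finset S → R) :
    Matrix (Finset S × Finset S) (Finset S × Finset S) R :=
  Matrix.of fun J K => ca ν J K • (1 : R) - cb ν J K • p J.1

theorem dm_apply (ν : S → ℕ) {R : Type*} [Ring R] (p : Finset S → R) (J K : Finset S × Finset S) :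
    dm ν p J K = ca ν J K • (1 : R) - cb ν J K • p J.1 := rfl

theorem sum_ca (ν : S → ℕ) {E : Type*} [AddCommGroup E] (f : Finset S × Finset S → E)
    (J : Finset S × Finset S) (h : J.1 ⊆ J.2) :
    ∑ K, ca ν J K • f K = ∑ v ∈ J.2ᶜ, sg ν (J.2 \ J.1) v • f (J.1, insert v J.2) := by
  have h1 : ∀ K ∈ (univ : Finset (Finset S × Finset S)), ca ν J K • f K
      = ∑ v ∈ J.2ᶜ, if K = (J.1, insert v J.2) then sg ν (J.2 \ J.1) v • f K else 0 := by
    intro K _
    unfold ca
    rw [if_pos h, Finset.sum_smul]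
    apply Finset.sum_congr rfl
    intro v _
    split_ifs
    · rfl
    · rw [zero_smul]
  rw [Finset.sum_congr rfl h1, Finset.sum_comm]
  apply Finset.sum_congr rfl
  intro v _
  rw [Finset.sum_ite_eq' univ (J.1, insert v J.2), if_pos (Finset.mem_univ _)]

theorem sum_cb (ν : S → ℕ) {E : Type*} [AddCommGroup E] (f : Finset S × Finset S → E)
    (J : Finset S × Finset S) (h : J.1 ⊆ J.2) :
    ∑ K, cb ν J K • f K = ∑ v ∈ J.1, sg ν (J.2 \ J.1) v • f (J.1.erase v, J.2) := by
  have h1 : ∀ K ∈ (univ : Finset (Finset S × Finset S)), cb ν J K • f K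
      = ∑ v ∈ J.1, if K = (J.1.erase v, J.2) then sg ν (J.2 \ J.1) v • f K else 0 := by
    intro K _
    unfold cb
    rw [if_pos h, Finset.sum_smul]
    apply Finset.sum_congr rfl
    intro v _
    split_ifs
    · rfl
    · rw [zero_smul]
  rw [Finset.sum_congr rfl h1, Finset.sum_comm]
  apply Finset.sum_congr rfl
  intro v _
  rw [Finset.sum_ite_eq' univ (J.1.erase v, J.2), if_pos (Finset.mem_univ _)]

/-- the boundary in terms of the coefficients -/
theorem cbd_eq (ν : S → ℕ) {E : Type*} [AddCommGroup E] (P : Finset S → E →+ E)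
    (f : Finset S → Finset S → E) (J : Finset S × Finset S) :
    cbd ν (fun A => P A) f J.1 J.2 = ∑ K : Finset S × Finset S,
      (ca ν J K • f K.1 K.2 - cb ν J K • P J.1 (f K.1 K.2)) := by
  by_cases h : J.1 ⊆ J.2
  · rw [cbd_of_subset ν _ _ h, Finset.sum_sub_distrib, sum_ca ν (fun K => f K.1 K.2) J h,
      sum_cb ν (fun K => P J.1 (f K.1 K.2)) J h]
  · rw [cbd_of_not ν _ _ h]
    symm
    apply Finset.sum_eq_zero
    intro K _
    unfold ca cb
    rw [if_neg h, if_neg h, zero_smul, zero_smul, sub_zero]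

/-- the values of the projections on the part which belongs to `A` -/
noncomputable def ch (A : Finset S) : Finset S → ℂ := fun B => if B ⊆ A then 1 else 0

theorem dm_ch_mulVec (ν : S → ℕ) (A : Finset S) (c : Finset S → Finset S → ℂ)
    (J : Finset S × Finset S) :
    (dm ν (ch A)).mulVec (fun K => c K.1 K.2) J = cbd ν (fun B => chi A B) c J.1 J.2 := by
  rw [cbd_eq, Matrix.mulVec, dotProduct]
  apply Finset.sum_congr rfl
  intro K _
  rw [dm_apply, sub_mul, smul_mul_assoc, one_mul, smul_mul_assoc]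
  congr 2
  unfold ch
  split_ifs with h
  · rw [one_mul, chi_of _ _ h]
  · rw [zero_mul, chi_not _ _ h]

section

variable {ι : Type*} [Fintype ι] [DecidableEq ι]

open Classical in
/-- the projection to the functions supported on `P` -/
noncomputable def pj (P : ι → Prop) : (ι → ℂ) →ₗ[ℂ] (ι → ℂ) where
  toFun f := fun σ => if P σ then f σ else 0
  map_add' := by
    intro f g
    funext σ
    show (if P σ then f σ + g σ else 0) = (if P σ then f σ else 0) + (if P σ then g σ else 0)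
    split_ifs
    · rfl
    · rw [add_zero]
  map_smul' := by
    intro c f
    funext σ
    show (if P σ then c * f σ else 0) = c * (if P σ then f σ else 0)
    split_ifs
    · rfl
    · rw [mul_zero]

theorem pj_eq {P : ι → Prop} {f : ι → ℂ} (hf : ∀ σ, f σ ≠ 0 → P σ) : pj P f = f := by
  classical
  funext σ
  show (if P σ then f σ else 0) = f σ
  split_ifs with h
  · rfl
  · by_contra hne
    exact h (hf σ (Ne.symm hne))

theorem pj_supp (P : ι → Prop) (f : ι → ℂ) (σ : ι) (h : pj P f σ ≠ 0) : P σ := by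
  classical
  by_contra hc
  apply h
  show (if P σ then f σ else 0) = 0
  rw [if_neg hc]

/-- a contraction in matrix form -/
theorem contr_gen (D : Matrix ι ι ℂ) {P Q : ι → Prop}
    (h : ∀ z : ι → ℂ, (∀ σ, z σ ≠ 0 → P σ) → D.mulVec z = 0 →
      ∃ y : ι → ℂ, (∀ σ, y σ ≠ 0 → Q σ) ∧ D.mulVec y = z) :
    ∃ η κ : Matrix ι ι ℂ, (∀ L K, η L K ≠ 0 → Q L) ∧ (∀ J M, κ J M ≠ 0 → P J) ∧
      ∀ J K, P K → (D * η + κ * D) J K = if J = K then 1 else 0 := by
  classical
  set Dl : (ι → ℂ) →ₗ[ℂ] (ι → ℂ) := D.mulVecLin with hDl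
  have hDa : ∀ z, Dl z = D.mulVec z := fun z => rfl
  obtain ⟨s, hs⟩ := exists_ginv (Dl ∘ₗ pj Q)
  obtain ⟨r, hr⟩ := exists_ginv (Dl ∘ₗ pj P)
  have hmain : ∀ z : ι → ℂ, (∀ σ, z σ ≠ 0 → P σ) →
      Dl (pj Q ((s ∘ₗ (LinearMap.id - pj P ∘ₗ r ∘ₗ Dl)) z)) + pj P (r (Dl z)) = z := by
    intro z hz
    have hz' : pj P z = z := pj_eq hz
    set c := z - pj P (r (Dl z)) with hc
    have hcs : ∀ σ, c σ ≠ 0 → P σ := by
      intro σ hσ
      by_contra hn
      apply hσ
      show z σ - (pj P (r (Dl z))) σ = 0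
      have e1 : z σ = 0 := by
        by_contra h0
        exact hn (hz σ h0)
      have e2 : (pj P (r (Dl z))) σ = 0 := by
        by_contra h0
        exact hn (pj_supp P _ σ h0)
      rw [e1, e2, sub_zero]
    have hcb : D.mulVec c = 0 := by
      have h1 := hr z
      simp only [LinearMap.comp_apply, hz'] at h1
      rw [← hDa, hc, map_sub, h1, sub_self]
    obtain ⟨y, hy1, hy2⟩ := h c hcs hcb
    have h2 : Dl (pj Q (s c)) = c := by
      have h3 := hs y
      simp only [LinearMap.comp_apply, pj_eq hy1] at h3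
      rw [hDa y, hy2] at h3
      exact h3
    have h4 : (s ∘ₗ (LinearMap.id - pj P ∘ₗ r ∘ₗ Dl)) z = s c := by
      simp only [LinearMap.comp_apply, LinearMap.sub_apply, LinearMap.id_apply, hc]
    rw [h4, h2, hc]
    abel
  set H : (ι → ℂ) →ₗ[ℂ] (ι → ℂ) := s ∘ₗ (LinearMap.id - pj P ∘ₗ r ∘ₗ Dl) with hH
  refine ⟨LinearMap.toMatrix' (pj Q ∘ₗ H), LinearMap.toMatrix' (pj P ∘ₗ r), ?_, ?_, ?_⟩
  · intro L K h0
    rw [LinearMap.toMatrix'_apply] at h0
    exact pj_supp Q _ L h0
  · intro J M h0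
    rw [LinearMap.toMatrix'_apply] at h0
    exact pj_supp P _ J h0
  · intro J K hK
    have h1 := hmain (Pi.single K 1) (by
      intro σ h0
      rw [Pi.single_apply] at h0
      split_ifs at h0 with h3
      · rw [h3]; exact hK
      · exact absurd rfl h0)
    have h2 : (D * LinearMap.toMatrix' (pj Q ∘ₗ H) + LinearMap.toMatrix' (pj P ∘ₗ r) * D).mulVec
        (Pi.single K 1) = Pi.single K 1 := by
      rw [Matrix.add_mulVec, ← Matrix.mulVec_mulVec, ← Matrix.mulVec_mulVec,
        LinearMap.toMatrix'_mulVec, LinearMap.toMatrix'_mulVec]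
      exact h1
    have h3 := congrFun h2 J
    rw [Matrix.mulVec_single_one, Pi.single_apply] at h3
    exact h3

end

/-- the cubes of dimension `i` -/
def IC (Sph : Finset S → Prop) (i : ℕ) (K : Finset S × Finset S) : Prop :=
  K.1 ⊆ K.2 ∧ Sph K.2 ∧ (K.2 \ K.1).card = i

/-- the contraction of the part which belongs to `A` -/
theorem contr_A (ν : S → ℕ) (hν : Function.Injective ν) {Sph : Finset S → Prop}
    (hS : ∀ T U, T ⊆ U → Sph U → Sph T) {A : Finset S} {i : ℕ}
    (hex : Ex ℂ ν (fun σ => Sph σ ∧ σ.card = i ∧ Disjoint σ A)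
      (fun σ => Sph σ ∧ σ.card = i + 1 ∧ Disjoint σ A)) :
    ∃ η κ : Matrix (Finset S × Finset S) (Finset S × Finset S) ℂ,
      (∀ L K, η L K ≠ 0 → IC Sph (i + 1) L ∧ L.1 ⊆ A) ∧ (∀ J M, κ J M ≠ 0 → IC Sph i J ∧ J.1 ⊆ A) ∧
      ∀ J K, IC Sph i K → K.1 ⊆ A →
        (dm ν (ch A) * η + κ * dm ν (ch A)) J K = if J = K then 1 else 0 := by
  obtain ⟨η, κ, h1, h2, h3⟩ := contr_gen (dm ν (ch A))
    (P := fun K => IC Sph i K ∧ K.1 ⊆ A) (Q := fun K => IC Sph (i + 1) K ∧ K.1 ⊆ A) (by
    intro z hz hz0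
    obtain ⟨y, hy1, hy2⟩ := exact_A ν hν hS hex (c := fun B T => z (B, T))
      (fun B T h0 => hz (B, T) h0) (by
      funext B T
      have h1 := dm_ch_mulVec ν A (fun B T => z (B, T)) (B, T)
      exact h1.symm.trans (congrFun hz0 (B, T)))
    refine ⟨fun K => y K.1 K.2, fun K h0 => hy1 _ _ h0, ?_⟩
    funext J
    rw [dm_ch_mulVec, hy2])
  exact ⟨η, κ, h1, h2, fun J K a b => h3 J K ⟨a, b⟩⟩

end Pool.Agent.H8.BD
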