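import Pool.Agent.H8.BD.Cub

/-!
# Project BD: the part of the cubical complex which belongs to a spherical set
-/

set_option autoImplicit false
set_option linter.unusedSectionVars false

open Finset

namespace Pool.Agent.H8.BD

open Pool.Agent.H78.RA

variable {S : Type} [Fintype S] [DecidableEq S]

/-- the value of `P B` on the part which belongs to `A₀` -/
noncomputable def chi (A₀ B : Finset S) : ℂ →+ ℂ := if B ⊆ A₀ then AddMonoidHom.id ℂ else 0

theorem chi_of (A₀ B : Finset S) (h : B ⊆ A₀) (x : ℂ) : chi A₀ B x = x := by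
  unfold chi
  rw [if_pos h]
  rfl

theorem chi_not (A₀ B : Finset S) (h : ¬ B ⊆ A₀) (x : ℂ) : chi A₀ B x = 0 := by
  unfold chi
  rw [if_neg h]
  rfl

theorem chi_erase (A₀ A : Finset S) (v : S) (_ : v ∈ A) (x : ℂ) :
    chi A₀ A (chi A₀ (A.erase v) x) = chi A₀ A x := by
  by_cases h : A ⊆ A₀
  · rw [chi_of _ _ h, chi_of _ _ h, chi_of _ _ ((Finset.erase_subset v A).trans h)]
  · rw [chi_not _ _ h, chi_not _ _ h]

/-- the chains of the part which belongs to `A₀` -/
def ChA (Sph : Finset S → Prop) (A₀ : Finset S) (i : ℕ) (c : Finset S → Finset S → ℂ) : Prop :=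
  ∀ B T, c B T ≠ 0 → (B ⊆ T ∧ Sph T ∧ (T \ B).card = i) ∧ B ⊆ A₀

theorem ChA.add {Sph : Finset S → Prop} {A₀ : Finset S} {i : ℕ} {c c' : Finset S → Finset S → ℂ}
    (h : ChA Sph A₀ i c) (h' : ChA Sph A₀ i c') : ChA Sph A₀ i (c + c') := by
  intro B T h0
  by_cases h1 : c B T = 0
  · apply h'
    intro h2
    apply h0
    show c B T + c' B T = 0
    rw [h1, h2, add_zero]
  · exact h _ _ h1

theorem ChA.sub {Sph : Finset S → Prop} {A₀ : Finset S} {i : ℕ} {c c' : Finset S → Finset S → ℂ}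
    (h : ChA Sph A₀ i c) (h' : ChA Sph A₀ i c') : ChA Sph A₀ i (c - c') := by
  intro B T h0
  by_cases h1 : c B T = 0
  · apply h'
    intro h2
    apply h0
    show c B T - c' B T = 0
    rw [h1, h2, sub_zero]
  · exact h _ _ h1

theorem ChA.cbd (ν : S → ℕ) {Sph : Finset S → Prop} (hS : ∀ T U, T ⊆ U → Sph U → Sph T) {A₀ : Finset S}
    {i : ℕ} {c : Finset S → Finset S → ℂ} (h : ChA Sph A₀ (i + 1) c) :
    ChA Sph A₀ i (cbd ν (fun A => chi A₀ A) c) := by
  intro B T h0
  refine ⟨cbd_supp ν hS (chi A₀) i c (fun A T h1 => (h A T h1).1) B T h0, ?_⟩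
  by_contra hn
  have hBT : B ⊆ T := by
    by_contra hn
    exact h0 (cbd_of_not ν _ _ hn)
  apply h0
  rw [cbd_of_subset ν _ _ hBT, Finset.sum_eq_zero, Finset.sum_eq_zero, sub_zero]
  · intro v _
    rw [chi_not _ _ hn, smul_zero]
  · intro v _
    have : c B (insert v T) = 0 := by
      by_contra h1
      exact hn (h _ _ h1).2
    rw [this, smul_zero]

/-- the contraction of the direction `v` -/
theorem elim (ν : S → ℕ) (hν : Function.Injective ν) {Sph : Finset S → Prop}
    (hS : ∀ T U, T ⊆ U → Sph U → Sph T) {A₀ : Finset S} {v : S} (hv : v ∈ A₀) {i : ℕ}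
    {c : Finset S → Finset S → ℂ} (hc : ChA Sph A₀ i c) (hz : cbd ν (fun A => chi A₀ A) c = 0) :
    ∃ h, ChA Sph A₀ (i + 1) h ∧ (∀ B T, h B T ≠ 0 → c (insert v B) T ≠ 0) ∧
      ∀ B T, v ∈ T → (c - cbd ν (fun A => chi A₀ A) h) B T = 0 := by
  classical
  set h : Finset S → Finset S → ℂ := fun B T =>
    if v ∈ T \ B ∧ B ⊆ T then (-sg ν ((T \ B).erase v) v) • c (insert v B) T else 0 with hh
  have h1 : ∀ B T, h B T ≠ 0 → (v ∈ T \ B ∧ B ⊆ T) ∧ c (insert v B) T ≠ 0 := by
    intro B T h0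
    by_cases h2 : v ∈ T \ B ∧ B ⊆ T
    · refine ⟨h2, fun h3 => h0 ?_⟩
      show (if v ∈ T \ B ∧ B ⊆ T then _ else _) = _
      rw [if_pos h2, h3, smul_zero]
    · exact absurd (if_neg h2) h0
  have hch : ChA Sph A₀ (i + 1) h := by
    intro B T h0
    obtain ⟨⟨h2, h3⟩, h4⟩ := h1 B T h0
    obtain ⟨⟨h5, h6, h7⟩, h8⟩ := hc _ _ h4
    refine ⟨⟨h3, h6, ?_⟩, (Finset.subset_insert v B).trans h8⟩
    have h9 : T \ B = insert v (T \ insert v B) := by
      ext x
      simp only [Finset.mem_sdiff, Finset.mem_insert] at h2 ⊢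
      constructor
      · rintro ⟨a, b⟩
        by_cases hx : x = v
        · exact Or.inl hx
        · exact Or.inr ⟨a, fun hh => hh.elim hx b⟩
      · rintro (rfl | ⟨a, b⟩)
        · exact h2
        · exact ⟨a, fun hh => b (Or.inr hh)⟩
    rw [h9, Finset.card_insert_of_notMem (by simp), h7]
  refine ⟨h, hch, fun B T h0 => (h1 B T h0).2, ?_⟩
  set c' := c - cbd ν (fun A => chi A₀ A) h with hc'
  have hc'A : ChA Sph A₀ i c' := hc.sub (hch.cbd ν hS)
  have hz' : cbd ν (fun A => chi A₀ A) c' = 0 := by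
    rw [hc', cbd_sub, hz, cbd_cbd ν hν (chi A₀) (chi_erase A₀), sub_zero]
  -- the part with `v ∈ B`
  have key : ∀ B T, v ∈ B → c' B T = 0 := by
    intro B T hvB
    by_contra h0
    obtain ⟨⟨hBT, hT, hcard⟩, hBA⟩ := hc'A B T h0
    apply h0
    show c B T - cbd ν (fun A => chi A₀ A) h B T = 0
    have hvD : v ∉ T \ B := fun h3 => (Finset.mem_sdiff.1 h3).2 hvB
    rw [cbd_of_subset ν _ _ hBT]
    have e1 : ∑ u ∈ Tᶜ, sg ν (T \ B) u • h B (insert u T) = 0 := by
      apply Finset.sum_eq_zero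
      intro u hu
      have : h B (insert u T) = 0 := by
        apply if_neg
        rintro ⟨h3, _⟩
        exact (Finset.mem_sdiff.1 h3).2 hvB
      rw [this, smul_zero]
    have e2 : ∑ u ∈ B, sg ν (T \ B) u • chi A₀ B (h (B.erase u) T)
        = sg ν (T \ B) v • chi A₀ B (h (B.erase v) T) := by
      apply Finset.sum_eq_single v
      · intro u hu huv
        have : h (B.erase u) T = 0 := by
          apply if_neg
          rintro ⟨h3, _⟩
          exact (Finset.mem_sdiff.1 h3).2 (Finset.mem_erase.2 ⟨huv.symm, hvB⟩)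
        rw [this, map_zero, smul_zero]
      · intro h3
        exact absurd hvB h3
    have e3 : h (B.erase v) T = (-sg ν (T \ B) v) • c B T := by
      show (if v ∈ T \ B.erase v ∧ B.erase v ⊆ T then _ else _) = _
      have e4 : T \ B.erase v = insert v (T \ B) := sdiff_erase' hBT hvB
      rw [if_pos, e4, Finset.erase_insert hvD, Finset.insert_erase hvB]
      refine ⟨?_, (Finset.erase_subset v B).trans hBT⟩
      rw [e4]
      exact Finset.mem_insert_self _ _
    rw [e1, e2, e3, chi_of _ _ hBA, neg_smul, smul_neg, smul_smul, sg_mul_sg, one_smul, zero_sub,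
      neg_neg, sub_self]
  intro B T hvT
  by_cases hvB : v ∈ B
  · exact key B T hvB
  by_contra h0
  obtain ⟨⟨hBT, hT, hcard⟩, hBA⟩ := hc'A B T h0
  have h3 : insert v B ⊆ T := Finset.insert_subset hvT hBT
  have h4 : cbd ν (fun A => chi A₀ A) c' (insert v B) T = 0 := by
    rw [hz']
    rfl
  rw [cbd_of_subset ν _ _ h3] at h4
  have e1 : ∑ u ∈ Tᶜ, sg ν (T \ insert v B) u • c' (insert v B) (insert u T) = 0 := by
    apply Finset.sum_eq_zero
    intro u _
    rw [key _ _ (Finset.mem_insert_self _ _), smul_zero]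
  have e2 : ∑ u ∈ insert v B, sg ν (T \ insert v B) u • chi A₀ (insert v B) (c' ((insert v B).erase u) T)
      = sg ν (T \ insert v B) v • chi A₀ (insert v B) (c' ((insert v B).erase v) T) := by
    apply Finset.sum_eq_single v
    · intro u _ huv
      rw [key _ _ (Finset.mem_erase.2 ⟨huv.symm, Finset.mem_insert_self _ _⟩), map_zero, smul_zero]
    · intro h5
      exact absurd (Finset.mem_insert_self _ _) h5
  rw [e1, e2, zero_sub, neg_eq_zero, Finset.erase_insert hvB,
    chi_of _ _ (Finset.insert_subset hv hBA)] at h4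
  apply h0
  have h5 := congrArg (fun z : ℂ => sg ν (T \ insert v B) v • z) h4
  simp only [smul_smul, sg_mul_sg, one_smul, smul_zero] at h5
  exact h5

/-- all directions of `A₀` can be contracted -/
theorem elims (ν : S → ℕ) (hν : Function.Injective ν) {Sph : Finset S → Prop}
    (hS : ∀ T U, T ⊆ U → Sph U → Sph T) {A₀ : Finset S} {i : ℕ}
    {c : Finset S → Finset S → ℂ} (hc : ChA Sph A₀ i c) (hz : cbd ν (fun A => chi A₀ A) c = 0) :
    ∀ W : Finset S, W ⊆ A₀ → ∃ h, ChA Sph A₀ (i + 1) h ∧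
      ∀ B T, ∀ v ∈ W, v ∈ T → (c - cbd ν (fun A => chi A₀ A) h) B T = 0 := by
  intro W
  induction W using Finset.induction_on with
  | empty =>
    intro _
    refine ⟨0, fun B T h0 => absurd rfl h0, fun B T v hv => absurd hv (Finset.notMem_empty v)⟩
  | insert w W hw ih =>
    intro hW
    obtain ⟨h₁, a1, a2⟩ := ih fun x hx => hW (Finset.mem_insert_of_mem hx)
    set c₁ := c - cbd ν (fun A => chi A₀ A) h₁ with hc₁
    have hc₁A : ChA Sph A₀ i c₁ := hc.sub (a1.cbd ν hS)
    have hz₁ : cbd ν (fun A => chi A₀ A) c₁ = 0 := by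
      rw [hc₁, cbd_sub, hz, cbd_cbd ν hν (chi A₀) (chi_erase A₀), sub_zero]
    obtain ⟨h₂, b1, b2, b3⟩ := elim ν hν hS (hW (Finset.mem_insert_self _ _)) hc₁A hz₁
    refine ⟨h₁ + h₂, a1.add b1, ?_⟩
    have e1 : c - cbd ν (fun A => chi A₀ A) (h₁ + h₂) = c₁ - cbd ν (fun A => chi A₀ A) h₂ := by
      rw [cbd_add, hc₁]
      abel
    rw [e1]
    intro B T v hv hvT
    rcases Finset.mem_insert.1 hv with rfl | hv
    · exact b3 B T hvT
    · show c₁ B T - cbd ν (fun A => chi A₀ A) h₂ B T = 0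
      rw [a2 B T v hv hvT, zero_sub, neg_eq_zero]
      have h0 : ∀ B T, v ∈ T → h₂ B T = 0 := by
        intro B T hvT
        by_contra hn
        exact b2 B T hn (a2 _ _ v hv hvT)
      by_cases hBT : B ⊆ T
      · rw [cbd_of_subset ν _ _ hBT, Finset.sum_eq_zero, Finset.sum_eq_zero, sub_zero]
        · intro u _
          rw [h0 _ _ hvT, map_zero, smul_zero]
        · intro u _
          rw [h0 _ _ (Finset.mem_insert_of_mem hvT), smul_zero]
      · exact cbd_of_not ν _ _ hBT

/-- exactness of the part which belongs to `A₀` -/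
theorem exact_A (ν : S → ℕ) (hν : Function.Injective ν) {Sph : Finset S → Prop}
    (hS : ∀ T U, T ⊆ U → Sph U → Sph T) {A₀ : Finset S} {i : ℕ}
    (hex : Ex ℂ ν (fun σ => Sph σ ∧ σ.card = i ∧ Disjoint σ A₀)
      (fun σ => Sph σ ∧ σ.card = i + 1 ∧ Disjoint σ A₀))
    {c : Finset S → Finset S → ℂ} (hc : ChA Sph A₀ i c) (hz : cbd ν (fun A => chi A₀ A) c = 0) :
    ∃ y, ChA Sph A₀ (i + 1) y ∧ cbd ν (fun A => chi A₀ A) y = c := by
  classical
  obtain ⟨h, a1, a2⟩ := elims ν hν hS hc hz A₀ subset_rfl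
  set c' := c - cbd ν (fun A => chi A₀ A) h with hc'
  have hc'A : ChA Sph A₀ i c' := hc.sub (a1.cbd ν hS)
  have hz' : cbd ν (fun A => chi A₀ A) c' = 0 := by
    rw [hc', cbd_sub, hz, cbd_cbd ν hν (chi A₀) (chi_erase A₀), sub_zero]
  have h1 : ∀ B T, c' B T ≠ 0 → B = ∅ ∧ Disjoint T A₀ := by
    intro B T h0
    have hd : Disjoint T A₀ := by
      rw [Finset.disjoint_left]
      intro v hvT hvA
      exact h0 (a2 B T v hvA hvT)
    obtain ⟨⟨hBT, _, _⟩, hBA⟩ := hc'A B T h0
    refine ⟨?_, hd⟩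
    rw [Finset.eq_empty_iff_forall_notMem]
    intro v hv
    exact Finset.disjoint_left.1 hd (hBT hv) (hBA hv)
  obtain ⟨y, hy1, hy2⟩ := hex (fun T => c' ∅ T) (by
    intro T h0
    obtain ⟨⟨_, h3, h4⟩, _⟩ := hc'A _ _ h0
    rw [Finset.sdiff_empty] at h4
    exact ⟨h3, h4, (h1 _ _ h0).2⟩) (by
    funext T
    have h2 : cbd ν (fun A => chi A₀ A) c' ∅ T = 0 := by
      rw [hz']
      rfl
    rw [cbd_of_subset ν _ _ (Finset.empty_subset T), Finset.sum_empty, sub_zero,
      Finset.sdiff_empty] at h2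
    exact h2)
  set Y : Finset S → Finset S → ℂ := fun B T => if B = ∅ then y T else 0 with hY
  have hY0 : ∀ T, Y ∅ T = y T := fun T => if_pos rfl
  have hY1 : ∀ B T, B ≠ ∅ → Y B T = 0 := fun B T hB => if_neg hB
  have hYA : ChA Sph A₀ (i + 1) Y := by
    intro B T h0
    by_cases hB : B = ∅
    · subst hB
      rw [hY0] at h0
      obtain ⟨h3, h4, h5⟩ := hy1 T h0
      refine ⟨⟨Finset.empty_subset _, h3, ?_⟩, Finset.empty_subset _⟩
      rw [Finset.sdiff_empty]
      exact h4
    · exact absurd (hY1 B T hB) h0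
  have hYc : cbd ν (fun A => chi A₀ A) Y = c' := by
    funext B T
    by_cases hBT : B ⊆ T
    swap
    · rw [cbd_of_not ν _ _ hBT]
      by_contra h0
      exact hBT (hc'A _ _ (Ne.symm h0)).1.1
    rw [cbd_of_subset ν _ _ hBT]
    by_cases hB : B = ∅
    · subst hB
      rw [Finset.sum_empty, sub_zero, Finset.sdiff_empty]
      have h2 := congrFun hy2 T
      unfold bd at h2
      exact h2
    · have h2 : c' B T = 0 := by
        by_contra h0
        exact hB (h1 _ _ h0).1
      rw [h2, Finset.sum_eq_zero, Finset.sum_eq_zero, sub_zero]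
      · intro u hu
        have h3 : chi A₀ B (Y (B.erase u) T) = 0 := by
          by_cases h4 : B.erase u = ∅
          · rw [h4, hY0]
            by_cases h5 : B ⊆ A₀
            · have h6 : y T = 0 := by
                by_contra h7
                exact Finset.disjoint_left.1 (hy1 T h7).2.2 (hBT hu) (h5 hu)
              rw [h6, map_zero]
            · exact chi_not _ _ h5 _
          · rw [hY1 _ _ h4, map_zero]
        rw [h3, smul_zero]
      · intro u _
        rw [hY1 _ _ hB, smul_zero]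
  refine ⟨Y + h, hYA.add a1, ?_⟩
  rw [cbd_add, hYc, hc']
  abel

end Pool.Agent.H8.BD
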