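import Pool.Agent.H8.BD.Alg

/-!
# Project BD: projections which commute up to small operators

`Dat Sph`: a normed space with operators `P T` of norm at most one, `P T` is zero if `T` is not spherical and
`P {v} P T` is `P (T + v)` up to `ε`. Modulo the families of operators of norm at most `C ε` these relations are exact.
-/

set_option autoImplicit false
set_option linter.unusedSectionVars false

open Finset

namespace Pool.Agent.H8.BD

open Pool.Agent.H78.RA

variable {S : Type} [Fintype S] [DecidableEq S]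

/-- almost commuting projections -/
structure Dat (Sph : Finset S → Prop) where
  E : Type
  [nE : NormedAddCommGroup E]
  [sE : NormedSpace ℂ E]
  P : Finset S → (E →L[ℂ] E)
  ε : ℝ
  one : P ∅ = 1
  nrm : ∀ T, ‖P T‖ ≤ 1
  zero : ∀ T, ¬ Sph T → P T = 0
  sml : ∀ v T, ‖P {v} * P T - P (insert v T)‖ ≤ ε
  sml' : ∀ T U, ‖P T * P U - P U * P T‖ ≤ ε

attribute [instance] Dat.nE Dat.sE

variable (Sph : Finset S → Prop)

/-- bounded families of operators -/
def BddS : Subalgebra ℂ (∀ D : Dat Sph, D.E →L[ℂ] D.E) where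
  carrier := {X | ∃ C : ℝ, ∀ D, ‖X D‖ ≤ C}
  mul_mem' := by
    rintro X Y ⟨C, hC⟩ ⟨C', hC'⟩
    refine ⟨C * C', fun D => ?_⟩
    exact (norm_mul_le _ _).trans (mul_le_mul (hC D) (hC' D) (norm_nonneg _)
      ((norm_nonneg _).trans (hC D)))
  add_mem' := by
    rintro X Y ⟨C, hC⟩ ⟨C', hC'⟩
    exact ⟨C + C', fun D => (norm_add_le _ _).trans (add_le_add (hC D) (hC' D))⟩
  algebraMap_mem' := by
    intro r
    refine ⟨‖r‖ * 1, fun D => ?_⟩
    have h1 : (algebraMap ℂ (∀ D : Dat Sph, D.E →L[ℂ] D.E) r) D = r • (1 : D.E →L[ℂ] D.E) := by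
      rw [Pi.algebraMap_apply, Algebra.algebraMap_eq_smul_one]
    rw [h1, norm_smul]
    exact mul_le_mul_of_nonneg_left ContinuousLinearMap.norm_id_le (norm_nonneg _)

/-- the congruence modulo small families -/
def sc : RingCon (BddS Sph) where
  r X Y := ∃ C : ℝ, ∀ D, ‖X.1 D - Y.1 D‖ ≤ C * D.ε
  iseqv := by
    refine ⟨fun X => ⟨0, fun D => by simp⟩, ?_, ?_⟩
    · rintro X Y ⟨C, hC⟩
      exact ⟨C, fun D => by rw [norm_sub_rev]; exact hC D⟩
    · rintro X Y Z ⟨C, hC⟩ ⟨C', hC'⟩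
      refine ⟨C + C', fun D => ?_⟩
      rw [add_mul]
      exact (norm_sub_le_norm_sub_add_norm_sub _ _ _).trans (add_le_add (hC D) (hC' D))
  mul' := by
    rintro ⟨W, w, hw⟩ ⟨X, x, hx⟩ ⟨Y, y, hy⟩ ⟨Z, z, hz⟩ ⟨C, hC⟩ ⟨C', hC'⟩
    refine ⟨w * C' + C * z, fun D => ?_⟩
    have h1 : W D * Y D - X D * Z D = W D * (Y D - Z D) + (W D - X D) * Z D := by
      rw [mul_sub, sub_mul]
      abel
    show ‖W D * Y D - X D * Z D‖ ≤ _
    rw [h1]
    refine (norm_add_le _ _).trans ?_
    rw [add_mul]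
    refine add_le_add ?_ ?_
    · rw [mul_assoc]
      exact (norm_mul_le _ _).trans (mul_le_mul (hw D) (hC' D) (norm_nonneg _)
        ((norm_nonneg _).trans (hw D)))
    · rw [mul_right_comm]
      exact (norm_mul_le _ _).trans (mul_le_mul (hC D) (hz D) (norm_nonneg _)
        ((norm_nonneg _).trans (hC D)))
  add' := by
    rintro W X Y Z ⟨C, hC⟩ ⟨C', hC'⟩
    refine ⟨C + C', fun D => ?_⟩
    rw [add_mul]
    have h1 : (W + Y).1 D - (X + Z).1 D = (W.1 D - X.1 D) + (Y.1 D - Z.1 D) := by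
      show (W.1 D + Y.1 D) - (X.1 D + Z.1 D) = _
      abel
    rw [h1]
    exact (norm_add_le _ _).trans (add_le_add (hC D) (hC' D))

/-- the projections -/
def pb (T : Finset S) : BddS Sph := ⟨fun D => D.P T, 1, fun D => D.nrm T⟩

/-- the projections in the quotient -/
def pq (T : Finset S) : (sc Sph).Quotient := ((pb Sph T : BddS Sph) : (sc Sph).Quotient)

theorem pq_com : Com Sph (pq Sph) := by
  refine ⟨?_, ?_, ?_⟩
  · unfold pq
    rw [← RingCon.coe_one]
    congr 1
    apply Subtype.ext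
    funext D
    exact D.one
  · intro v T
    unfold pq
    rw [← RingCon.coe_mul, RingCon.eq]
    refine ⟨1, fun D => ?_⟩
    rw [one_mul]
    exact D.sml v T
  · intro T hT
    unfold pq
    rw [← RingCon.coe_zero]
    congr 1
    apply Subtype.ext
    funext D
    exact D.zero T hT

theorem pq_comm (T U : Finset S) : pq Sph T * pq Sph U = pq Sph U * pq Sph T := by
  unfold pq
  rw [← RingCon.coe_mul, ← RingCon.coe_mul, RingCon.eq]
  refine ⟨1, fun D => ?_⟩
  rw [one_mul]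
  exact D.sml' T U

/-- the quotient map -/
def qm : BddS Sph →+* (sc Sph).Quotient := (sc Sph).mk'

theorem qm_surj (x : (sc Sph).Quotient) : ∃ y, qm Sph y = x := Quotient.exists_rep x

theorem qm_smul (c : ℂ) (x : BddS Sph) : qm Sph (c • x) = c • qm Sph x := rfl

theorem qm_pb (T : Finset S) : qm Sph (pb Sph T) = pq Sph T := rfl

theorem qm_eq (x y : BddS Sph) : qm Sph x = qm Sph y ↔ ∃ C : ℝ, ∀ D, ‖x.1 D - y.1 D‖ ≤ C * D.ε :=
  RingCon.eq (sc Sph)

theorem qm_dm (ν : S → ℕ) (J K : Finset S × Finset S) :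
    qm Sph (dm ν (pb Sph) J K) = dm ν (pq Sph) J K := by
  rw [dm_apply, dm_apply, map_sub, map_zsmul, map_zsmul, map_one, qm_pb]

open Classical in
theorem key_small (ν : S → ℕ) (i : ℕ) :
    ∃ e : Finset S → BddS Sph, ∀ (η κ : Finset S → Matrix (Finset S × Finset S) (Finset S × Finset S) ℂ)
      (_ : ∀ A, Sph A → ∀ L K, η A L K ≠ 0 → L.1 ⊆ A)
      (_ : ∀ A, Sph A → ∀ J K, IC Sph i K → K.1 ⊆ A →
        (dm ν (ch A) * η A + κ A * dm ν (ch A)) J K = if J = K then 1 else 0)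
      (J K : Finset S × Finset S) (_ : IC Sph i K),
      ∃ C : ℝ, ∀ D : Dat Sph, ‖((∑ L, dm ν (pb Sph) J L *
          (pb Sph L.1 * (∑ A : Finset S, if Sph A then η A L K • e A else 0))) * pb Sph K.1
      + (∑ M, (∑ A : Finset S, if Sph A then κ A J M • e A else 0) * dm ν (pb Sph) M K) * pb Sph K.1
        : BddS Sph).1 D - (if J = K then pb Sph K.1 else 0 : BddS Sph).1 D‖ ≤ C * D.ε := by
  obtain ⟨e', he⟩ := key_id_nc (pq_com Sph) (pq_comm Sph) ν i
  choose e hee using fun A => qm_surj Sph (e' A)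
  refine ⟨e, fun η κ hη hκ J K hK => ?_⟩
  rw [← qm_eq]
  have h5 := he η κ hη hκ J K hK
  simp only [map_add, map_sum, map_mul, apply_ite (qm Sph), qm_smul, map_zero, hee, qm_dm, qm_pb]
  exact h5

end Pool.Agent.H8.BD
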