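import Pool.Agent.H8.BD.Mat

/-!
# Project BD: exactness of the cubical complex when the links are acyclic

`exact_links`: if the simplicial chains of the links of all spherical sets (the empty set included) are exact in
size `i`, the cubical complex with any coefficients is exact in degree `i`. `ex_links`: this holds if all full
subcomplexes of the nerve are exact in all sizes `≥ i`.
-/

set_option autoImplicit false
set_option linter.unusedSectionVars false

open Finset

namespace Pool.Agent.H8.BD

open Pool.Agent.H78.RA

variable {S : Type} [Fintype S] [DecidableEq S]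

/-- the simplicial boundary as a matrix -/
def sm (ν : S → ℕ) : Matrix (Finset S) (Finset S) ℂ :=
  Matrix.of fun σ τ => ∑ v ∈ σᶜ, if τ = insert v σ then (sg ν σ v : ℂ) else 0

theorem sum_sm (ν : S → ℕ) {X : Type*} [AddCommGroup X] [Module ℂ X] (c : Finset S → X) (σ : Finset S) :
    ∑ τ, sm ν σ τ • c τ = bd ν c σ := by
  have h1 : ∀ τ ∈ (univ : Finset (Finset S)), sm ν σ τ • c τ
      = ∑ v ∈ σᶜ, if τ = insert v σ then (sg ν σ v : ℂ) • c τ else 0 := by
    intro τ _
    show (∑ v ∈ σᶜ, if τ = insert v σ then (sg ν σ v : ℂ) else 0) • c τ = _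
    rw [Finset.sum_smul]
    apply Finset.sum_congr rfl
    intro v _
    split_ifs
    · rfl
    · rw [zero_smul]
  rw [Finset.sum_congr rfl h1, Finset.sum_comm]
  unfold bd
  apply Finset.sum_congr rfl
  intro v _
  rw [Finset.sum_ite_eq' univ (insert v σ), if_pos (Finset.mem_univ _), Int.cast_smul_eq_zsmul]

/-- fillings by a matrix -/
theorem vec_fill (ν : S → ℕ) {P Q : Finset S → Prop} (h : Ex ℂ ν P Q) :
    ∃ η : Finset S → Finset S → ℂ, (∀ σ τ, η σ τ ≠ 0 → Q σ) ∧
      ∀ {X : Type} [AddCommGroup X] [Module ℂ X] (c : Finset S → X), (∀ σ, c σ ≠ 0 → P σ) →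
        bd ν c = 0 → bd ν (fun σ => ∑ τ, η σ τ • c τ) = c := by
  classical
  have hmv : ∀ z : Finset S → ℂ, (sm ν).mulVec z = bd ν z := by
    intro z
    funext σ
    rw [← sum_sm]
    rfl
  obtain ⟨η, κ, h1, h2, h3⟩ := contr_gen (sm ν) (P := P) (Q := Q) (by
    intro z hz hz0
    rw [hmv] at hz0
    obtain ⟨y, hy1, hy2⟩ := h z hz hz0
    exact ⟨y, hy1, by rw [hmv, hy2]⟩)
  refine ⟨fun σ τ => η σ τ, fun σ τ h0 => h1 σ τ h0, ?_⟩
  intro X _ _ c hc hc0
  funext σ
  rw [← sum_sm]
  have e1 : ∑ τ, sm ν σ τ • ∑ ρ, η τ ρ • c ρ = ∑ ρ, (sm ν * η) σ ρ • c ρ := by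
    simp only [Finset.smul_sum, smul_smul]
    rw [Finset.sum_comm]
    apply Finset.sum_congr rfl
    intro ρ _
    rw [← Finset.sum_smul, Matrix.mul_apply]
  have e2 : ∑ ρ, (κ * sm ν) σ ρ • c ρ = 0 := by
    have e3 : ∑ ρ, (κ * sm ν) σ ρ • c ρ = ∑ τ, κ σ τ • ∑ ρ, sm ν τ ρ • c ρ := by
      simp only [Finset.smul_sum, smul_smul]
      rw [Finset.sum_comm]
      apply Finset.sum_congr rfl
      intro ρ _
      rw [← Finset.sum_smul, Matrix.mul_apply]
    rw [e3]
    apply Finset.sum_eq_zero
    intro τ _
    rw [sum_sm, hc0, Pi.zero_apply, smul_zero]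
  have e4 : ∑ ρ, (sm ν * η + κ * sm ν) σ ρ • c ρ = c σ := by
    rw [Finset.sum_eq_single σ]
    · by_cases hσ : P σ
      · rw [h3 σ σ hσ, if_pos rfl, one_smul]
      · have : c σ = 0 := by
          by_contra h0
          exact hσ (hc σ h0)
        rw [this, smul_zero]
    · intro ρ _ hne
      by_cases hρ : P ρ
      · rw [h3 σ ρ hρ, if_neg (Ne.symm hne), zero_smul]
      · have : c ρ = 0 := by
          by_contra h0
          exact hρ (hc ρ h0)
        rw [this, smul_zero]
    · intro h0
      exact absurd (Finset.mem_univ _) h0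
  simp only [Matrix.add_apply, add_smul, Finset.sum_add_distrib] at e4
  rw [e2, add_zero] at e4
  rw [e1, e4]

/-- **exactness of the cubical complex when the links are acyclic** -/
theorem exact_links (Sph : Finset S → Prop) (hS : ∀ T U, T ⊆ U → Sph U → Sph T) (ν : S → ℕ)
    (hν : Function.Injective ν) (i : ℕ)
    (hex : ∀ A, Sph A → Ex ℂ ν (fun σ => Sph (σ ∪ A) ∧ σ.card = i ∧ Disjoint σ A)
      (fun σ => Sph (σ ∪ A) ∧ σ.card = i + 1 ∧ Disjoint σ A))
    {X : Type} [AddCommGroup X] [Module ℂ X] (P : Finset S → X →ₗ[ℂ] X)
    (hP1 : ∀ A x, P A (P A x) = P A x) (hP2 : ∀ A, ∀ v ∈ A, ∀ x, P A (P (A.erase v) x) = P A x) :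
    ∀ f : Finset S → Finset S → X, Ch Sph i f → (∀ A T, P A (f A T) = f A T) →
      cbd ν (fun A => P A) f = 0 →
      ∃ g, Ch Sph (i + 1) g ∧ (∀ A T, P A (g A T) = g A T) ∧ cbd ν (fun A => P A) g = f := by
  classical
  have hη : ∀ A : Finset S, ∃ η : Finset S → Finset S → ℂ, Sph A →
      (∀ σ τ, η σ τ ≠ 0 → Sph (σ ∪ A) ∧ σ.card = i + 1 ∧ Disjoint σ A) ∧
      ∀ (c : Finset S → X), (∀ σ, c σ ≠ 0 → Sph (σ ∪ A) ∧ σ.card = i ∧ Disjoint σ A) →
        bd ν c = 0 → bd ν (fun σ => ∑ τ, η σ τ • c τ) = c := by
    intro A
    by_cases hA : Sph A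
    · obtain ⟨η, h1, h2⟩ := vec_fill ν (hex A hA)
      exact ⟨η, fun _ => ⟨h1, fun c => h2 c⟩⟩
    · exact ⟨0, fun h => absurd h hA⟩
  choose η hη using hη
  let Pa : Finset S → X →+ X := fun A => (P A).toAddMonoidHom
  have main : ∀ m : ℕ, ∀ f : Finset S → Finset S → X, Ch Sph i f → (∀ A T, P A (f A T) = f A T) →
      cbd ν (fun A => P A) f = 0 → (∀ A T, A.card + m < Fintype.card S + 1 → f A T = 0) →
      ∃ g, Ch Sph (i + 1) g ∧ (∀ A T, P A (g A T) = g A T) ∧ cbd ν (fun A => P A) g = f := by
    intro m
    induction m with
    | zero =>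
      intro f _ _ _ hf0
      refine ⟨0, fun A T h0 => absurd rfl h0, fun A T => map_zero _, ?_⟩
      have h1 := cbd_zero ν Pa
      rw [show cbd ν (fun A => P A) (0 : Finset S → Finset S → X) = 0 from h1]
      funext A T
      symm
      apply hf0
      have := Finset.card_le_univ A
      omega
    | succ m ih =>
      intro f hf hfP hfc hf0
      set c : Finset S → Finset S → X := fun A σ => if Disjoint σ A then f A (σ ∪ A) else 0 with hc
      set y : Finset S → Finset S → X := fun A σ => ∑ τ, η A σ τ • c A τ with hy
      set g : Finset S → Finset S → X := fun A T =>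
        if A.card + m = Fintype.card S ∧ A ⊆ T ∧ Sph A then y A (T \ A) else 0 with hg
      have hg0 : ∀ A T, A.card + m ≠ Fintype.card S → g A T = 0 := fun A T h =>
        if_neg fun h1 => h h1.1
      have hgch : Ch Sph (i + 1) g := by
        intro A T h0
        by_cases h1 : A.card + m = Fintype.card S ∧ A ⊆ T ∧ Sph A
        · have h2 : g A T = y A (T \ A) := if_pos h1
          rw [h2] at h0
          obtain ⟨τ, _, h3⟩ := Finset.exists_ne_zero_of_sum_ne_zero h0
          have h4 : η A (T \ A) τ ≠ 0 := fun h5 => h3 (by rw [h5, zero_smul])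
          obtain ⟨h5, h6, _⟩ := (hη A h1.2.2).1 _ _ h4
          rw [Finset.sdiff_union_of_subset h1.2.1] at h5
          exact ⟨h1.2.1, h5, h6⟩
        · exact absurd (if_neg h1) h0
      have hgP : ∀ A T, P A (g A T) = g A T := by
        intro A T
        by_cases h1 : A.card + m = Fintype.card S ∧ A ⊆ T ∧ Sph A
        · have h2 : g A T = y A (T \ A) := if_pos h1
          rw [h2, hy]
          simp only [map_sum, map_smul]
          apply Finset.sum_congr rfl
          intro τ _
          congr 1
          show P A (if Disjoint τ A then f A (τ ∪ A) else 0) = if Disjoint τ A then f A (τ ∪ A) else 0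
          split_ifs
          · exact hfP _ _
          · exact map_zero _
        · have h2 : g A T = 0 := if_neg h1
          rw [h2, map_zero]
      have hcyc : ∀ A, A.card + m = Fintype.card S → bd ν (c A) = 0 := by
        intro A hA
        funext σ
        show bd ν (c A) σ = 0
        unfold bd
        by_cases hd : Disjoint σ A
        swap
        · apply Finset.sum_eq_zero
          intro v _
          have : c A (insert v σ) = 0 := if_neg fun h => hd (h.mono_left (Finset.subset_insert v σ))
          rw [this, smul_zero]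
        have h1 : cbd ν (fun A => P A) f A (σ ∪ A) = 0 := by
          rw [hfc]
          rfl
        rw [cbd_of_subset ν _ _ Finset.subset_union_right] at h1
        have h2 : ∑ v ∈ A, sg ν ((σ ∪ A) \ A) v • P A (f (A.erase v) (σ ∪ A)) = 0 := by
          apply Finset.sum_eq_zero
          intro v hv
          rw [hf0 _ _ (by rw [Finset.card_erase_of_mem hv]; have := Finset.card_pos.2 ⟨v, hv⟩; omega),
            map_zero, smul_zero]
        have h3 : (σ ∪ A) \ A = σ := Finset.union_sdiff_cancel_right hd
        rw [h2, sub_zero, h3] at h1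
        rw [← h1]
        symm
        apply Finset.sum_subset_zero_on_sdiff
        · exact Finset.compl_subset_compl.2 Finset.subset_union_left
        · intro v hv
          rw [Finset.mem_sdiff, Finset.mem_compl, Finset.mem_compl, not_not, Finset.mem_union] at hv
          have hvA : v ∈ A := hv.2.resolve_left hv.1
          have : c A (insert v σ) = 0 := if_neg fun h =>
            Finset.disjoint_left.1 h (Finset.mem_insert_self v σ) hvA
          rw [this, smul_zero]
        · intro v hv
          rw [Finset.mem_compl, Finset.mem_union, not_or] at hv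
          have : c A (insert v σ) = f A (insert v σ ∪ A) := if_pos (by
            rw [Finset.disjoint_insert_left]
            exact ⟨hv.2, hd⟩)
          rw [this, Finset.insert_union]
      have hgc : ∀ A T, A.card + m < Fintype.card S + 1 → cbd ν (fun A => P A) g A T = f A T := by
        intro A T hA
        by_cases hAT : A ⊆ T
        swap
        · rw [cbd_of_not ν _ _ hAT]
          by_contra h0
          exact hAT (hf A T (Ne.symm h0)).1
        rw [cbd_of_subset ν _ _ hAT]
        have h2 : ∑ v ∈ A, sg ν (T \ A) v • P A (g (A.erase v) T) = 0 := by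
          apply Finset.sum_eq_zero
          intro v hv
          rw [hg0 _ _ (by rw [Finset.card_erase_of_mem hv]; have := Finset.card_pos.2 ⟨v, hv⟩; omega),
            map_zero, smul_zero]
        rw [h2, sub_zero]
        by_cases hA1 : A.card + m = Fintype.card S
        swap
        · rw [hf0 A T (by omega)]
          apply Finset.sum_eq_zero
          intro v _
          rw [hg0 _ _ hA1, smul_zero]
        by_cases hAs : Sph A
        swap
        · have h3 : f A T = 0 := by
            by_contra h0
            exact hAs (hS _ _ hAT (hf A T h0).2.1)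
          rw [h3]
          apply Finset.sum_eq_zero
          intro v _
          have : g A (insert v T) = 0 := if_neg fun h => hAs h.2.2
          rw [this, smul_zero]
        have h4 := (hη A hAs).2 (c A) (by
          intro σ h0
          by_cases hd : Disjoint σ A
          · have h5 : c A σ = f A (σ ∪ A) := if_pos hd
            rw [h5] at h0
            obtain ⟨_, h6, h7⟩ := hf _ _ h0
            rw [Finset.union_sdiff_cancel_right hd] at h7
            exact ⟨h6, h7, hd⟩
          · exact absurd (if_neg hd) h0) (hcyc A hA1)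
        have h5 := congrFun h4 (T \ A)
        have h6 : c A (T \ A) = f A T := by
          have : c A (T \ A) = f A (T \ A ∪ A) := if_pos Finset.sdiff_disjoint
          rw [this, Finset.sdiff_union_of_subset hAT]
        rw [h6] at h5
        rw [← h5]
        unfold bd
        apply Finset.sum_subset_zero_on_sdiff
        · exact Finset.compl_subset_compl.2 Finset.sdiff_subset
        · intro v hv
          rw [Finset.mem_sdiff, Finset.mem_compl, Finset.mem_compl, not_not, Finset.mem_sdiff, not_and,
            not_not] at hv
          have hvA : v ∈ A := hv.1 hv.2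
          have : ∑ τ, η A (insert v (T \ A)) τ • c A τ = 0 := by
            apply Finset.sum_eq_zero
            intro τ _
            have : η A (insert v (T \ A)) τ = 0 := by
              by_contra h0
              exact Finset.disjoint_left.1 ((hη A hAs).1 _ _ h0).2.2 (Finset.mem_insert_self _ _) hvA
            rw [this, zero_smul]
          show sg ν (T \ A) v • ∑ τ, η A (insert v (T \ A)) τ • c A τ = 0
          rw [this, smul_zero]
        · intro v hv
          have hvT : v ∉ T := Finset.mem_compl.1 hv
          have h7 : g A (insert v T) = y A (insert v T \ A) :=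
            if_pos ⟨hA1, hAT.trans (Finset.subset_insert v T), hAs⟩
          rw [h7, insert_sdiff fun h => hvT (hAT h)]
      obtain ⟨g₂, a1, a2, a3⟩ := ih (f - cbd ν (fun A => P A) g) (by
          intro A T h0
          by_cases h1 : f A T = 0
          · apply cbd_supp ν hS Pa i g hgch
            intro h2
            apply h0
            show f A T - cbd ν (fun A => P A) g A T = 0
            rw [h1, show cbd ν (fun A => P A) g A T = 0 from h2, sub_zero]
          · exact hf _ _ h1) (by
          intro A T
          show P A (f A T - cbd ν (fun A => P A) g A T) = f A T - cbd ν (fun A => P A) g A T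
          rw [map_sub, hfP]
          congr 1
          by_cases hAT : A ⊆ T
          · rw [cbd_of_subset ν _ _ hAT, map_sub, map_sum, map_sum]
            congr 1
            · apply Finset.sum_congr rfl
              intro v _
              rw [map_zsmul, hgP]
            · apply Finset.sum_congr rfl
              intro v _
              rw [map_zsmul, hP1]
          · rw [cbd_of_not ν _ _ hAT, map_zero]) (by
          have h1 := cbd_sub ν Pa f (cbd ν (fun A => P A) g)
          have h2 := cbd_cbd ν hν Pa hP2 g
          refine h1.trans ?_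
          rw [show cbd ν (fun A => Pa A) f = 0 from hfc,
            show cbd ν (fun A => Pa A) (cbd ν (fun A => P A) g) = 0 from h2, sub_zero]) (by
          intro A T hA
          show f A T - cbd ν (fun A => P A) g A T = 0
          rw [hgc A T (by omega), sub_self])
      refine ⟨g + g₂, ?_, ?_, ?_⟩
      · intro A T h0
        by_cases h1 : g A T = 0
        · apply a1
          intro h2
          apply h0
          show g A T + g₂ A T = 0
          rw [h1, h2, add_zero]
        · exact hgch _ _ h1
      · intro A T
        show P A (g A T + g₂ A T) = g A T + g₂ A T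
        rw [map_add, hgP, a2]
      · have h1 := cbd_add ν Pa g g₂
        refine h1.trans ?_
        rw [show cbd ν (fun A => Pa A) g₂ = f - cbd ν (fun A => P A) g from a3]
        exact add_sub_cancel _ _
  intro f hf hfP hfc
  refine main (Fintype.card S + 1) f hf hfP hfc fun A T hA => ?_
  omega

/-- if all full subcomplexes are exact in the sizes `≥ i`, so are the links -/
theorem ex_links (Sph : Finset S → Prop) (hS : ∀ T U, T ⊆ U → Sph U → Sph T) (ν : S → ℕ)
    (hν : Function.Injective ν) (i : ℕ)
    (hL : ∀ j, i ≤ j → ∀ U : Finset S, Ex ℂ ν (fun σ => Sph σ ∧ σ.card = j ∧ σ ⊆ U)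
      (fun σ => Sph σ ∧ σ.card = j + 1 ∧ σ ⊆ U)) (A : Finset S) :
    ∀ j, i ≤ j → ∀ U : Finset S, Ex ℂ ν (fun σ => Sph (σ ∪ A) ∧ σ.card = j ∧ Disjoint σ A ∧ σ ⊆ U)
      (fun σ => Sph (σ ∪ A) ∧ σ.card = j + 1 ∧ Disjoint σ A ∧ σ ⊆ U) := by
  classical
  induction A using Finset.induction_on with
  | empty =>
    intro j hj U z hz hz0
    obtain ⟨y, h1, h2⟩ := hL j hj U z (fun σ h0 => by
      obtain ⟨a, b, _, d⟩ := hz σ h0
      rw [Finset.union_empty] at a
      exact ⟨a, b, d⟩) hz0
    refine ⟨y, fun σ h0 => ?_, h2⟩
    obtain ⟨a, b, d⟩ := h1 σ h0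
    rw [Finset.union_empty]
    exact ⟨a, b, Finset.disjoint_empty_right _, d⟩
  | insert a A ha ih =>
    intro j hj U z hz hz0
    have hza : ∀ σ, a ∈ σ → z σ = 0 := by
      intro σ hσ
      by_contra h0
      exact Finset.disjoint_left.1 (hz σ h0).2.2.1 hσ (Finset.mem_insert_self _ _)
    -- a filling which avoids `a`
    obtain ⟨y, hy1, hy2⟩ := ih j hj (U.erase a) z (by
      intro σ h0
      obtain ⟨h1, h2, h3, h4⟩ := hz σ h0
      refine ⟨hS _ _ (Finset.union_subset_union_right (Finset.subset_insert a A)) h1, h2,
        h3.mono_right (Finset.subset_insert a A), ?_⟩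
      intro x hx
      refine Finset.mem_erase.2 ⟨?_, h4 hx⟩
      rintro rfl
      exact h0 (hza σ hx)) hz0
    have hya : ∀ σ, a ∈ σ → y σ = 0 := by
      intro σ hσ
      by_contra h0
      exact (Finset.mem_erase.1 ((hy1 σ h0).2.2.2 hσ)).1 rfl
    -- the cone
    set w : Finset S → ℂ := fun σ => if a ∈ σ then (sg ν (σ.erase a) a : ℂ) * z (σ.erase a) else 0
      with hw
    have hw1 : ∀ σ, a ∉ σ → w σ = 0 := fun σ h => if_neg h
    have hw2 : ∀ σ, a ∉ σ → w (insert a σ) = (sg ν σ a : ℂ) * z σ := by
      intro σ h
      show (if a ∈ insert a σ then _ else _) = _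
      rw [if_pos (Finset.mem_insert_self _ _), Finset.erase_insert h]
    have hsq : ∀ (D : Finset S) (v : S), (sg ν D v : ℂ) * (sg ν D v : ℂ) = 1 := by
      intro D v
      have := sg_mul_sg ν D v
      exact_mod_cast this
    have hsw : ∀ (D : Finset S) (u v : S), u ∉ D → v ∉ D → u ≠ v →
        (sg ν D v : ℂ) * (sg ν (insert v D) u : ℂ) = -((sg ν D u : ℂ) * (sg ν (insert u D) v : ℂ)) := by
      intro D u v hu hv huv
      have := sg_swap ν hν D u v hu hv huv
      have h2 : (sg ν D v : ℂ) * (sg ν (insert v D) u : ℂ) + (sg ν D u : ℂ) * (sg ν (insert u D) v : ℂ)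
          = 0 := by exact_mod_cast this
      exact eq_neg_of_add_eq_zero_left h2
    have hbw : bd ν w = z := by
      funext σ
      unfold bd
      by_cases haσ : a ∈ σ
      · rw [hza σ haσ]
        set ρ := σ.erase a with hρ
        have haρ : a ∉ ρ := Finset.notMem_erase a σ
        have hσρ : σ = insert a ρ := (Finset.insert_erase haσ).symm
        have h1 : bd ν z ρ = 0 := by rw [hz0]; rfl
        unfold bd at h1
        have h2 : ∑ v ∈ σᶜ, sg ν σ v • w (insert v σ) = -((sg ν ρ a : ℂ) * ∑ v ∈ ρᶜ, sg ν ρ v •
            z (insert v ρ)) := by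
          rw [Finset.mul_sum, ← Finset.sum_neg_distrib]
          apply Finset.sum_subset_zero_on_sdiff
          · rw [hσρ]
            exact Finset.compl_subset_compl.2 (Finset.subset_insert a ρ)
          · intro v hv
            rw [Finset.mem_sdiff, Finset.mem_compl, Finset.mem_compl, not_not, hσρ,
              Finset.mem_insert] at hv
            have hva : v = a := hv.2.resolve_right hv.1
            rw [hza _ (by rw [hva]; exact Finset.mem_insert_self _ _), smul_zero, mul_zero, neg_zero]
          · intro v hv
            rw [Finset.mem_compl, hσρ, Finset.mem_insert, not_or] at hv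
            have h3 : insert v σ = insert a (insert v ρ) := by rw [hσρ, Finset.insert_comm]
            have h4 : a ∉ insert v ρ := by
              rw [Finset.mem_insert, not_or]
              exact ⟨Ne.symm hv.1, haρ⟩
            rw [h3, hw2 _ h4, zsmul_eq_mul, zsmul_eq_mul, hσρ, ← mul_assoc, ← mul_assoc, ← neg_mul]
            congr 1
            have e1 := hsw ρ v a hv.2 haρ hv.1
            have e2 := hsq ρ a
            have e3 := hsq (insert v ρ) a
            -- multiply the relation by both signs
            calc (sg ν (insert a ρ) v : ℂ) * (sg ν (insert v ρ) a : ℂ)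
                = ((sg ν ρ a : ℂ) * (sg ν ρ a : ℂ)) * ((sg ν (insert a ρ) v : ℂ)
                  * (sg ν (insert v ρ) a : ℂ)) := by rw [e2, one_mul]
              _ = (sg ν ρ a : ℂ) * ((sg ν ρ a : ℂ) * (sg ν (insert a ρ) v : ℂ))
                  * (sg ν (insert v ρ) a : ℂ) := by ring
              _ = -((sg ν ρ a : ℂ) * (sg ν ρ v : ℂ) * ((sg ν (insert v ρ) a : ℂ)
                  * (sg ν (insert v ρ) a : ℂ))) := by rw [e1]; ring
              _ = -((sg ν ρ a : ℂ) * (sg ν ρ v : ℂ)) := by rw [e3, mul_one]
        rw [h2, h1, mul_zero, neg_zero]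
      · rw [Finset.sum_eq_single a]
        · rw [hw2 σ haσ, zsmul_eq_mul, ← mul_assoc, hsq, one_mul]
        · intro v _ hva
          rw [hw1 _ (by
            rw [Finset.mem_insert, not_or]
            exact ⟨Ne.symm hva, haσ⟩), smul_zero]
        · intro h
          exact absurd (Finset.mem_compl.2 haσ) h
    obtain ⟨x, hx1, hx2⟩ := ih (j + 1) (by omega) (insert a U) (w - y) (by
      intro σ h0
      by_cases haσ : a ∈ σ
      · set ρ := σ.erase a with hρ
        have haρ : a ∉ ρ := Finset.notMem_erase a σ
        have hσρ : σ = insert a ρ := (Finset.insert_erase haσ).symm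
        have h1 : z ρ ≠ 0 := by
          intro h1
          apply h0
          show w σ - y σ = 0
          rw [hya σ haσ, hσρ, hw2 ρ haρ, h1, mul_zero, sub_zero]
        obtain ⟨h2, h3, h4, h5⟩ := hz ρ h1
        refine ⟨?_, ?_, ?_, ?_⟩
        · rw [hσρ, Finset.insert_union, ← Finset.union_insert]
          exact h2
        · rw [hσρ, Finset.card_insert_of_notMem haρ, h3]
        · rw [hσρ, Finset.disjoint_insert_left]
          exact ⟨ha, h4.mono_right (Finset.subset_insert a A)⟩
        · rw [hσρ]
          exact Finset.insert_subset_insert a h5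
      · have h1 : y σ ≠ 0 := by
          intro h1
          apply h0
          show w σ - y σ = 0
          rw [hw1 σ haσ, h1, sub_zero]
        obtain ⟨h2, h3, h4, h5⟩ := hy1 σ h1
        exact ⟨h2, h3, h4, (h5.trans (Finset.erase_subset a U)).trans (Finset.subset_insert a U)⟩) (by
      have e1 : w - y = w + -y := sub_eq_add_neg w y
      have e2 : bd ν (-y) = -bd ν y := by
        funext σ
        unfold bd
        simp only [Pi.neg_apply, smul_neg, Finset.sum_neg_distrib]
      rw [e1, bd_add, e2, hbw, hy2, add_neg_cancel])
    refine ⟨fun σ => if a ∈ σ then 0 else -((sg ν σ a : ℂ) * x (insert a σ)), ?_, ?_⟩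
    · intro σ h0
      by_cases haσ : a ∈ σ
      · exact absurd (if_pos haσ) h0
      · have h1 : x (insert a σ) ≠ 0 := by
          intro h1
          apply h0
          show (if a ∈ σ then (0 : ℂ) else _) = 0
          rw [if_neg haσ, h1, mul_zero, neg_zero]
        obtain ⟨h2, h3, h4, h5⟩ := hx1 _ h1
        rw [Finset.card_insert_of_notMem haσ] at h3
        rw [Finset.insert_union, ← Finset.union_insert] at h2
        refine ⟨h2, by omega, ?_, ?_⟩
        · rw [Finset.disjoint_insert_right]
          exact ⟨haσ, h4.mono_left (Finset.subset_insert a σ)⟩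
        · intro t ht
          rcases Finset.mem_insert.1 (h5 (Finset.mem_insert_of_mem ht)) with rfl | h
          · exact absurd ht haσ
          · exact h
    · funext σ
      unfold bd
      by_cases haσ : a ∈ σ
      · rw [hza σ haσ]
        apply Finset.sum_eq_zero
        intro v _
        show sg ν σ v • (if a ∈ insert v σ then (0 : ℂ) else
          -((sg ν (insert v σ) a : ℂ) * x (insert a (insert v σ)))) = 0
        rw [if_pos (Finset.mem_insert_of_mem haσ), smul_zero]
      · have h1 : bd ν x (insert a σ) = (sg ν σ a : ℂ) * z σ := by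
          rw [hx2]
          show w (insert a σ) - y (insert a σ) = _
          rw [hw2 σ haσ, hya _ (Finset.mem_insert_self _ _), sub_zero]
        have h2 : z σ = (sg ν σ a : ℂ) * bd ν x (insert a σ) := by
          rw [h1, ← mul_assoc, hsq, one_mul]
        rw [h2]
        unfold bd
        rw [Finset.mul_sum]
        symm
        apply Finset.sum_subset_zero_on_sdiff
        · exact Finset.compl_subset_compl.2 (Finset.subset_insert a σ)
        · intro v hv
          rw [Finset.mem_sdiff, Finset.mem_compl, Finset.mem_compl, not_not, Finset.mem_insert] at hv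
          have hva : v = a := hv.2.resolve_right hv.1
          show sg ν σ v • (if a ∈ insert v σ then (0 : ℂ) else
            -((sg ν (insert v σ) a : ℂ) * x (insert a (insert v σ)))) = 0
          rw [if_pos (by rw [hva]; exact Finset.mem_insert_self _ _), smul_zero]
        · intro v hv
          rw [Finset.mem_compl, Finset.mem_insert, not_or] at hv
          have h4 : a ∉ insert v σ := by
            rw [Finset.mem_insert, not_or]
            exact ⟨Ne.symm hv.1, haσ⟩
          show (sg ν σ a : ℂ) * (sg ν (insert a σ) v • x (insert v (insert a σ)))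
            = sg ν σ v • (if a ∈ insert v σ then (0 : ℂ) else
            -((sg ν (insert v σ) a : ℂ) * x (insert a (insert v σ))))
          rw [if_neg h4, zsmul_eq_mul, zsmul_eq_mul, Finset.insert_comm v a σ, ← mul_assoc]
          have e1 := hsw σ v a hv.2 haσ hv.1
          rw [e1]
          ring

end Pool.Agent.H8.BD
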